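import Mathlib

section

open MeasureTheory Set

namespace Pool.Agent.Lib.MP_d01728_an

theorem half_ineq {f : ℝ → ℝ} (hf : ContDiff ℝ 1 f) (h0 : f 0 = 0) {L : ℝ} (hL : 0 < L) :
    ∫ x in (0:ℝ)..L, f x ^ 2 ≤ L ^ 2 / 2 * ∫ x in (0:ℝ)..L, deriv f x ^ 2 := by
  have hfc := hf.continuous
  have hd : Continuous (deriv f) := hf.continuous_deriv (by norm_num)
  set J := ∫ x in (0:ℝ)..L, deriv f x ^ 2 with hJ
  have hpt : ∀ x ∈ Icc 0 L, f x ^ 2 ≤ x * J := by
    intro x hx
    rcases eq_or_lt_of_le hx.1 with h | h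
    · rw [← h, h0]; simp
    · have hI : ∫ t in (0:ℝ)..x, deriv f t = f x := by
        rw [intervalIntegral.integral_deriv_eq_sub
          (fun t _ => (hf.differentiable (by norm_num) t)) (hd.intervalIntegrable _ _), h0,
          sub_zero]
      have h1 : 0 ≤ ∫ t in (0:ℝ)..x, (deriv f t - f x / x) ^ 2 :=
        intervalIntegral.integral_nonneg hx.1 fun t _ => sq_nonneg _
      have h2 : ∫ t in (0:ℝ)..x, (deriv f t - f x / x) ^ 2 =
          (∫ t in (0:ℝ)..x, deriv f t ^ 2) - 2 * (f x / x) * (∫ t in (0:ℝ)..x, deriv f t) +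
          x * (f x / x) ^ 2 := by
        have c1 : Continuous fun t => deriv f t ^ 2 := by fun_prop
        have c2 : Continuous fun t => 2 * (f x / x) * deriv f t := by fun_prop
        have c3 : Continuous fun t => deriv f t ^ 2 - 2 * (f x / x) * deriv f t := by fun_prop
        rw [← intervalIntegral.integral_const_mul,
          ← intervalIntegral.integral_sub (c1.intervalIntegrable _ _) (c2.intervalIntegrable _ _)]
        have c4 : x * (f x / x) ^ 2 = ∫ _t in (0:ℝ)..x, (f x / x) ^ 2 := by simp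
        rw [c4, ← intervalIntegral.integral_add (c3.intervalIntegrable _ _)
          (continuous_const.intervalIntegrable _ _)]
        apply intervalIntegral.integral_congr
        intro t _
        simp only
        ring
      have h3 : ∫ t in (0:ℝ)..x, deriv f t ^ 2 ≤ J := by
        have c5 : Continuous fun t => deriv f t ^ 2 := by fun_prop
        rw [hJ, ← intervalIntegral.integral_add_adjacent_intervals (a := 0) (b := x) (c := L)
          (c5.intervalIntegrable _ _) (c5.intervalIntegrable _ _)]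
        have : 0 ≤ ∫ t in x..L, deriv f t ^ 2 :=
          intervalIntegral.integral_nonneg hx.2 fun t _ => sq_nonneg _
        linarith
      rw [hI] at h2
      have h4 : x * (f x / x) ^ 2 = f x ^ 2 / x := by field_simp
      have h5 : 2 * (f x / x) * f x = 2 * (f x ^ 2 / x) := by ring
      rw [h4, h5] at h2
      have h6 : f x ^ 2 / x ≤ J := by linarith
      rw [div_le_iff₀ h] at h6
      linarith
  calc ∫ x in (0:ℝ)..L, f x ^ 2 ≤ ∫ x in (0:ℝ)..L, x * J := by
        apply intervalIntegral.integral_mono_on hL.le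
        · exact (hfc.pow 2).intervalIntegrable _ _
        · exact Continuous.intervalIntegrable (by fun_prop) _ _
        · exact hpt
    _ = L ^ 2 / 2 * J := by
        rw [intervalIntegral.integral_mul_const, integral_id]; ring

theorem full_ineq {f : ℝ → ℝ} (hf : ContDiff ℝ 1 f) (h0 : f 0 = 0) {L : ℝ} (hL : 0 < L) :
    (2 / L ^ 2) * ∫ x in (-L)..L, f x ^ 2 ≤ ∫ x in (-L)..L, deriv f x ^ 2 := by
  have hfc := hf.continuous
  have hd : Continuous (deriv f) := hf.continuous_deriv (by norm_num)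
  have h1 := half_ineq hf h0 hL
  have hg : ContDiff ℝ 1 (fun x => f (-x)) := hf.comp contDiff_neg
  have h2 := half_ineq hg (by simpa using h0) hL
  have hdg : ∀ x, deriv (fun x => f (-x)) x = - deriv f (-x) := by
    intro x
    exact deriv_comp_neg f x
  simp only [hdg, neg_sq] at h2
  rw [intervalIntegral.integral_comp_neg (fun x => f x ^ 2),
    intervalIntegral.integral_comp_neg (fun x => deriv f x ^ 2), neg_zero] at h2
  have e1 := intervalIntegral.integral_add_adjacent_intervals (a := -L) (b := 0) (c := L)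
    ((hfc.pow 2).intervalIntegrable (μ := volume) _ _) ((hfc.pow 2).intervalIntegrable _ _)
  have e2 := intervalIntegral.integral_add_adjacent_intervals (a := -L) (b := 0) (c := L)
    ((hd.pow 2).intervalIntegrable (μ := volume) _ _) ((hd.pow 2).intervalIntegrable _ _)
  simp only [Pi.pow_apply] at e1 e2
  rw [← e1, ← e2]
  have h3 : (∫ x in (-L)..0, f x ^ 2) + (∫ x in (0:ℝ)..L, f x ^ 2) ≤
      L ^ 2 / 2 * ((∫ x in (-L)..0, deriv f x ^ 2) + ∫ x in (0:ℝ)..L, deriv f x ^ 2) := by
    linarith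
  calc (2 / L ^ 2) * ((∫ x in (-L)..0, f x ^ 2) + (∫ x in (0:ℝ)..L, f x ^ 2))
      ≤ (2 / L ^ 2) * (L ^ 2 / 2 * ((∫ x in (-L)..0, deriv f x ^ 2) +
        ∫ x in (0:ℝ)..L, deriv f x ^ 2)) := by gcongr
    _ = _ := by field_simp

/-- existence and upper bound of the lowest interval eigenvalue -/
theorem mu0_exists {L α : ℝ} (hL : 0 < L) (hα : 0 < α) :
    ∃ mu0 : ℝ, IsGLB {t : ℝ | ∃ u : ℝ → ℝ, ContDiff ℝ 1 u ∧
      0 < (∫ x in Set.Ioo (-L) L, u x ^ 2) ∧
      t = ((∫ x in Set.Ioo (-L) L, deriv u x ^ 2) + α * (u (-L) ^ 2 + u L ^ 2))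
          / (∫ x in Set.Ioo (-L) L, u x ^ 2)} mu0 ∧ mu0 ≤ α / L := by
  set T := {t : ℝ | ∃ u : ℝ → ℝ, ContDiff ℝ 1 u ∧
      0 < (∫ x in Set.Ioo (-L) L, u x ^ 2) ∧
      t = ((∫ x in Set.Ioo (-L) L, deriv u x ^ 2) + α * (u (-L) ^ 2 + u L ^ 2))
          / (∫ x in Set.Ioo (-L) L, u x ^ 2)} with hT
  have hint : ∫ x in Set.Ioo (-L) L, (1:ℝ) ^ 2 = 2 * L := by
    simp; rw [max_eq_left (by linarith)]; ring
  have hmem : α / L ∈ T := by
    refine ⟨fun _ => 1, contDiff_const, ?_, ?_⟩
    · rw [hint]; linarith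
    · rw [hint]
      simp
      field_simp
      ring
  have hbdd : BddBelow T := by
    refine ⟨0, ?_⟩
    rintro t ⟨u, _, h1, rfl⟩
    apply div_nonneg _ h1.le
    have : 0 ≤ ∫ x in Set.Ioo (-L) L, deriv u x ^ 2 := integral_nonneg fun x => sq_nonneg _
    positivity
  obtain ⟨m, hm⟩ := Real.exists_isGLB ⟨_, hmem⟩ hbdd
  exact ⟨m, hm, hm.1 hmem⟩

theorem mu1_exists {L α : ℝ} (hL : 0 < L) (hα : 0 < α) :
    ∃ mu1 : ℝ, IsGLB {t : ℝ | ∃ u w : ℝ → ℝ, ContDiff ℝ 1 u ∧ ContDiff ℝ 1 w ∧
      0 < (∫ x in Set.Ioo (-L) L, u x ^ 2) *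
          (∫ x in Set.Ioo (-L) L, w x ^ 2) -
          (∫ x in Set.Ioo (-L) L, u x * w x) ^ 2 ∧
      IsLUB {s : ℝ | ∃ a b : ℝ, (a ≠ 0 ∨ b ≠ 0) ∧
        s = ((∫ x in Set.Ioo (-L) L,
                  deriv (fun y => a * u y + b * w y) x ^ 2) +
              α * ((a * u (-L) + b * w (-L)) ^ 2 +
                   (a * u L + b * w L) ^ 2))
            / (∫ x in Set.Ioo (-L) L,
                  (a * u x + b * w x) ^ 2)} t} mu1 ∧ 2 / L ^ 2 ≤ mu1 := by
  have hconv : ∀ F : ℝ → ℝ, ∫ x in Set.Ioo (-L) L, F x = ∫ x in (-L)..L, F x := by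
    intro F
    rw [intervalIntegral.integral_of_le (by linarith), integral_Ioc_eq_integral_Ioo]
  simp only [hconv]
  set T := {t : ℝ | ∃ u w : ℝ → ℝ, ContDiff ℝ 1 u ∧ ContDiff ℝ 1 w ∧
      0 < (∫ x in (-L)..L, u x ^ 2) *
          (∫ x in (-L)..L, w x ^ 2) -
          (∫ x in (-L)..L, u x * w x) ^ 2 ∧
      IsLUB {s : ℝ | ∃ a b : ℝ, (a ≠ 0 ∨ b ≠ 0) ∧
        s = ((∫ x in (-L)..L,
                  deriv (fun y => a * u y + b * w y) x ^ 2) +
              α * ((a * u (-L) + b * w (-L)) ^ 2 +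
                   (a * u L + b * w L) ^ 2))
            / (∫ x in (-L)..L,
                  (a * u x + b * w x) ^ 2)} t} with hT
  have hlow : ∀ t ∈ T, 2 / L ^ 2 ≤ t := by
    rintro t ⟨u, w, hu, hw, hG, hlub⟩
    have cu := hu.continuous
    have cw := hw.continuous
    obtain ⟨a, b, hab, hf0⟩ : ∃ a b : ℝ, (a ≠ 0 ∨ b ≠ 0) ∧ a * u 0 + b * w 0 = 0 := by
      by_cases h : u 0 = 0
      · exact ⟨1, 0, Or.inl one_ne_zero, by rw [h]; ring⟩
      · exact ⟨w 0, - u 0, Or.inr (neg_ne_zero.mpr h), by ring⟩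
    have hf : ContDiff ℝ 1 (fun y => a * u y + b * w y) :=
      (contDiff_const.mul hu).add (contDiff_const.mul hw)
    have hin := full_ineq hf hf0 hL
    set U := ∫ x in (-L)..L, u x ^ 2 with hU
    set W := ∫ x in (-L)..L, w x ^ 2 with hW
    set X := ∫ x in (-L)..L, u x * w x with hX
    have hN : ∫ x in (-L)..L, (a * u x + b * w x) ^ 2 = a ^ 2 * U + 2 * a * b * X + b ^ 2 * W := by
      have c1 : Continuous fun x => a ^ 2 * u x ^ 2 := by fun_prop
      have c2 : Continuous fun x => 2 * a * b * (u x * w x) := by fun_prop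
      have c3 : Continuous fun x => b ^ 2 * w x ^ 2 := by fun_prop
      have c4 : Continuous fun x => a ^ 2 * u x ^ 2 + 2 * a * b * (u x * w x) := by fun_prop
      rw [hU, hW, hX, ← intervalIntegral.integral_const_mul,
        ← intervalIntegral.integral_const_mul, ← intervalIntegral.integral_const_mul,
        ← intervalIntegral.integral_add (c1.intervalIntegrable _ _) (c2.intervalIntegrable _ _),
        ← intervalIntegral.integral_add (c4.intervalIntegrable _ _) (c3.intervalIntegrable _ _)]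
      apply intervalIntegral.integral_congr
      intro x _
      simp only
      ring
    have hU0 : 0 ≤ U := intervalIntegral.integral_nonneg (by linarith) fun x _ => sq_nonneg _
    have hW0 : 0 ≤ W := intervalIntegral.integral_nonneg (by linarith) fun x _ => sq_nonneg _
    have hUpos : 0 < U := by
      rcases hU0.eq_or_lt with h | h
      · rw [← h] at hG; nlinarith [sq_nonneg X]
      · exact h
    have hWpos : 0 < W := by
      rcases hW0.eq_or_lt with h | h
      · rw [← h] at hG; nlinarith [sq_nonneg X]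
      · exact h
    have hNpos : 0 < a ^ 2 * U + 2 * a * b * X + b ^ 2 * W := by
      by_cases hb : b = 0
      · have ha : a ≠ 0 := by
          rcases hab with h | h
          · exact h
          · exact absurd hb h
        rw [hb]
        have : 0 < a ^ 2 := by positivity
        have : 0 < a ^ 2 * U := by positivity
        linarith
      · have h1 : 0 < U * (a ^ 2 * U + 2 * a * b * X + b ^ 2 * W) := by
          have : U * (a ^ 2 * U + 2 * a * b * X + b ^ 2 * W) =
            (a * U + b * X) ^ 2 + b ^ 2 * (U * W - X ^ 2) := by ring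
          rw [this]
          have : 0 < b ^ 2 := by positivity
          have : 0 < b ^ 2 * (U * W - X ^ 2) := by positivity
          positivity
        exact (mul_pos_iff_of_pos_left hUpos).mp h1
    have hmem := hlub.1 ⟨a, b, hab, rfl⟩
    refine le_trans ?_ hmem
    rw [hN, le_div_iff₀ hNpos, ← hN]
    have : 0 ≤ α * ((a * u (-L) + b * w (-L)) ^ 2 + (a * u L + b * w L) ^ 2) := by positivity
    linarith
  have hne : T.Nonempty := by
    -- the pair (1, x)
    have hd : ∀ a b x : ℝ, deriv (fun y : ℝ => a * 1 + b * y) x = b := by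
      intro a b x
      have := (((hasDerivAt_id' x).const_mul b).const_add (a * 1)).deriv
      simpa using this
    have hN : ∀ a b : ℝ, ∫ x in (-L)..L, (a * 1 + b * x) ^ 2 =
        2 * L * a ^ 2 + 2 * b ^ 2 * L ^ 3 / 3 := by
      intro a b
      have h1 : ∀ x ∈ uIcc (-L) L, HasDerivAt
          (fun x : ℝ => a ^ 2 * x + a * b * x ^ 2 + b ^ 2 * x ^ 3 / 3) ((a * 1 + b * x) ^ 2) x := by
        intro x _
        have h := (((hasDerivAt_id' x).const_mul (a ^ 2)).add
          ((hasDerivAt_pow 2 x).const_mul (a * b))).add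
          (((hasDerivAt_pow 3 x).const_mul (b ^ 2)).div_const 3)
        refine h.congr_deriv ?_
        push_cast
        ring
      rw [intervalIntegral.integral_eq_sub_of_hasDerivAt h1
        (Continuous.intervalIntegrable (by fun_prop) _ _)]
      ring
    have hbd : BddAbove {s : ℝ | ∃ a b : ℝ, (a ≠ 0 ∨ b ≠ 0) ∧
        s = ((∫ x in (-L)..L,
                  deriv (fun y => a * (fun _ : ℝ => (1:ℝ)) y + b * (fun x : ℝ => x) y) x ^ 2) +
              α * ((a * (fun _ : ℝ => (1:ℝ)) (-L) + b * (fun x : ℝ => x) (-L)) ^ 2 +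
                   (a * (fun _ : ℝ => (1:ℝ)) L + b * (fun x : ℝ => x) L) ^ 2))
            / (∫ x in (-L)..L,
                  (a * (fun _ : ℝ => (1:ℝ)) x + b * (fun x : ℝ => x) x) ^ 2)} := by
      refine ⟨3 / L ^ 2 + 3 * α / L, ?_⟩
      rintro s ⟨a, b, hab, rfl⟩
      simp only [hd, hN]
      have hpos : 0 < 2 * L * a ^ 2 + 2 * b ^ 2 * L ^ 3 / 3 := by
        rcases hab with h | h
        · have : 0 < a ^ 2 := by positivity
          positivity
        · have : 0 < b ^ 2 := by positivity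
          positivity
      rw [div_le_iff₀ hpos]
      have e : ∫ _x in (-L)..L, b ^ 2 = 2 * L * b ^ 2 := by
        rw [intervalIntegral.integral_const, smul_eq_mul]; ring
      rw [e]
      have : (3 / L ^ 2 + 3 * α / L) * (2 * L * a ^ 2 + 2 * b ^ 2 * L ^ 3 / 3) -
          (2 * L * b ^ 2 + α * ((a * 1 + b * -L) ^ 2 + (a * 1 + b * L) ^ 2)) =
          6 * a ^ 2 / L + 4 * α * a ^ 2 := by
        field_simp
        ring
      have : 0 ≤ 6 * a ^ 2 / L + 4 * α * a ^ 2 := by positivity
      linarith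
    obtain ⟨t, ht⟩ := Real.exists_isLUB (by
      exact ⟨_, (1:ℝ), (0:ℝ), Or.inl one_ne_zero, rfl⟩) hbd
    refine ⟨t, fun _ => 1, fun x => x, contDiff_const, contDiff_id, ?_, ht⟩
    have e1 := hN 1 0
    have e2 := hN 0 1
    simp only [one_mul, zero_mul, mul_one, mul_zero, add_zero, zero_add] at e1 e2
    have e3 : ∫ x in (-L)..L, (1:ℝ) * x = 0 := by
      simp only [one_mul]
      rw [integral_id]; ring
    rw [e1, e2, e3]
    norm_num
    positivity
  obtain ⟨m, hm⟩ := Real.exists_isGLB hne ⟨2 / L ^ 2, hlow⟩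
  exact ⟨m, hm, hm.2 hlow⟩

end Pool.Agent.Lib.MP_d01728_an
end

section

open MeasureTheory intervalIntegral Set

namespace Pool.Agent.Lib.MP_d01728_an

/-- one-dimensional slice inequality -/
theorem slice_one {f : ℝ → ℝ} (hf : ContDiff ℝ 1 f) {a γ : ℝ} (ha : 0 < a) (hγ : 0 ≤ γ) :
    (γ / a - γ ^ 2) * ∫ y in (-a)..a, f y ^ 2 ≤
      (∫ y in (-a)..a, deriv f y ^ 2) + γ * (f a ^ 2 + f (-a) ^ 2) := by
  have hfc : Continuous f := hf.continuous
  have hdc : Continuous (deriv f) := hf.continuous_deriv (by norm_num)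
  have hdf : ∀ y, HasDerivAt f (deriv f y) y := fun y =>
    (hf.differentiable (by norm_num) y).hasDerivAt
  have hftc : ∫ y in (-a)..a, (f y ^ 2 + 2 * y * f y * deriv f y) =
      a * (f a ^ 2 + f (-a) ^ 2) := by
    have h1 : ∀ y ∈ uIcc (-a) a, HasDerivAt (fun y => y * f y ^ 2)
        (f y ^ 2 + 2 * y * f y * deriv f y) y := by
      intro y _
      have h := (hasDerivAt_id' y).mul ((hdf y).pow 2)
      exact h.congr_deriv (by simp only [Pi.pow_apply]; push_cast; ring)
    rw [integral_eq_sub_of_hasDerivAt h1]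
    · ring
    · apply Continuous.intervalIntegrable
      fun_prop
  have hle : -a ≤ a := by linarith
  have key : 0 ≤ ∫ y in (-a)..a, (deriv f y ^ 2 + (γ / a) * (f y ^ 2 + 2 * y * f y * deriv f y)
      - (γ / a - γ ^ 2) * f y ^ 2) := by
    apply integral_nonneg hle
    intro y hy
    have hy2 : y ^ 2 ≤ a ^ 2 := by
      have : |y| ≤ a := abs_le.mpr ⟨by linarith [hy.1], hy.2⟩
      calc y ^ 2 = |y| ^ 2 := (sq_abs y).symm
        _ ≤ a ^ 2 := by gcongr
    have h2 : (γ / a * y) ^ 2 ≤ γ ^ 2 := by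
      have : γ / a * y = γ * (y / a) := by ring
      rw [this, mul_pow, div_pow]
      have : y ^ 2 / a ^ 2 ≤ 1 := by
        rw [div_le_one (by positivity)]; exact hy2
      nlinarith [sq_nonneg γ]
    nlinarith [sq_nonneg (deriv f y + (γ / a * y) * f y), sq_nonneg (f y)]
  have e1 : ∫ y in (-a)..a, (deriv f y ^ 2 + (γ / a) * (f y ^ 2 + 2 * y * f y * deriv f y)
      - (γ / a - γ ^ 2) * f y ^ 2) = (∫ y in (-a)..a, deriv f y ^ 2) +
      (γ / a) * (∫ y in (-a)..a, (f y ^ 2 + 2 * y * f y * deriv f y)) -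
      (γ / a - γ ^ 2) * ∫ y in (-a)..a, f y ^ 2 := by
    rw [intervalIntegral.integral_sub, intervalIntegral.integral_add,
      intervalIntegral.integral_const_mul, intervalIntegral.integral_const_mul]
    all_goals apply Continuous.intervalIntegrable; fun_prop
  rw [e1, hftc] at key
  have e2 : γ / a * (a * (f a ^ 2 + f (-a) ^ 2)) = γ * (f a ^ 2 + f (-a) ^ 2) := by
    field_simp
  rw [e2] at key
  linarith

/-- divergence identity on the triangle -/
theorem tri_identity {G : ℝ × ℝ → ℝ} (hG : ContDiff ℝ 1 G) (b : ℝ) :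
    (∫ s in (0:ℝ)..1, ∫ y in (-(b*(1-s)))..(b*(1-s)),
      (2 * G (s,y) + s * fderiv ℝ G (s,y) (1,0) + y * fderiv ℝ G (s,y) (0,1)))
     = b * ∫ s in (0:ℝ)..1, (G (s, b*(1-s)) + G (s, -(b*(1-s)))) := by
  set m : ℝ × ℝ → ℝ × ℝ := fun x => (x.1, b * (1 - x.1) * x.2) with hm
  set M : ℝ × ℝ → (ℝ × ℝ →L[ℝ] ℝ × ℝ) := fun x =>
    (ContinuousLinearMap.fst ℝ ℝ ℝ).prod
      ((b * (1 - x.1)) • ContinuousLinearMap.snd ℝ ℝ ℝ - (b * x.2) • ContinuousLinearMap.fst ℝ ℝ ℝ)
    with hM
  have hfst : ∀ x : ℝ × ℝ, HasFDerivAt (fun x : ℝ × ℝ => x.1) (ContinuousLinearMap.fst ℝ ℝ ℝ) x :=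
    fun x => hasFDerivAt_fst
  have hsnd : ∀ x : ℝ × ℝ, HasFDerivAt (fun x : ℝ × ℝ => x.2) (ContinuousLinearMap.snd ℝ ℝ ℝ) x :=
    fun x => hasFDerivAt_snd
  have hmd : ∀ x, HasFDerivAt m (M x) x := by
    intro x
    apply HasFDerivAt.prodMk (hfst x)
    have h := (((hfst x).const_sub 1).const_mul b).mul (hsnd x)
    refine h.congr_fderiv ?_
    ext <;> simp <;> ring
  have hGd : ∀ x, HasFDerivAt G (fderiv ℝ G x) x := fun x =>
    (hG.differentiable (by norm_num) x).hasFDerivAt
  have hGm : ∀ x, HasFDerivAt (fun x => G (m x)) ((fderiv ℝ G (m x)).comp (M x)) x := fun x =>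
    (hGd (m x)).comp x (hmd x)
  have hmc : Continuous m := by rw [hm]; fun_prop
  have hGc : Continuous G := hG.continuous
  have hG'c : Continuous (fderiv ℝ G) := hG.continuous_fderiv (by norm_num)
  set f : ℝ × ℝ → ℝ := fun x => (x.1 * (1 - x.1)) * G (m x) with hf
  set g : ℝ × ℝ → ℝ := fun x => x.2 * G (m x) with hg
  set f' : ℝ × ℝ → (ℝ × ℝ →L[ℝ] ℝ) := fun x =>
    (x.1 * (1 - x.1)) • ((fderiv ℝ G (m x)).comp (M x)) +
      (G (m x) * (1 - 2 * x.1)) • ContinuousLinearMap.fst ℝ ℝ ℝ with hf'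
  set g' : ℝ × ℝ → (ℝ × ℝ →L[ℝ] ℝ) := fun x =>
    x.2 • ((fderiv ℝ G (m x)).comp (M x)) + (G (m x)) • ContinuousLinearMap.snd ℝ ℝ ℝ with hg'
  have hfd : ∀ x, HasFDerivAt f (f' x) x := by
    intro x
    have h := ((hfst x).mul ((hfst x).const_sub 1)).mul (hGm x)
    refine h.congr_fderiv ?_
    ext <;> simp [hf'] <;> ring
  have hgd : ∀ x, HasFDerivAt g (g' x) x := by
    intro x
    have h := (hsnd x).mul (hGm x)
    refine h.congr_fderiv ?_
    ext <;> simp [hg']
  have hsplit : ∀ x v, fderiv ℝ G x v = v.1 * fderiv ℝ G x (1,0) + v.2 * fderiv ℝ G x (0,1) := by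
    intro x v
    have : v = v.1 • ((1:ℝ),(0:ℝ)) + v.2 • ((0:ℝ),(1:ℝ)) := by ext <;> simp
    conv_lhs => rw [this]
    rw [map_add, map_smul, map_smul]; simp
  have hval : ∀ x : ℝ × ℝ, f' x (1,0) + g' x (0,1) =
      (1 - x.1) * (2 * G (m x) + x.1 * fderiv ℝ G (m x) (1,0) +
        (b * (1 - x.1) * x.2) * fderiv ℝ G (m x) (0,1)) := by
    intro x
    have k1 : (M x (1,0)) = (1, - (b * x.2)) := by ext <;> simp [hM]
    have k2 : (M x (0,1)) = (0, b * (1 - x.1)) := by ext <;> simp [hM]
    have e1 : f' x (1,0) = (x.1 * (1 - x.1)) * (fderiv ℝ G (m x) (1, - (b * x.2))) +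
        G (m x) * (1 - 2 * x.1) := by
      rw [← k1]; simp [hf']
    have e2 : g' x (0,1) = x.2 * (fderiv ℝ G (m x) (0, b * (1 - x.1))) + G (m x) := by
      rw [← k2]; simp [hg']
    rw [e1, e2, hsplit (m x) (1, - (b * x.2)), hsplit (m x) (0, b * (1 - x.1))]
    simp only
    ring
  have hcont : Continuous (fun x : ℝ × ℝ => f' x (1,0) + g' x (0,1)) := by
    simp only [hval]
    have h1 : Continuous fun x : ℝ × ℝ => fderiv ℝ G (m x) (1,0) :=
      (hG'c.comp hmc).clm_apply continuous_const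
    have h2 : Continuous fun x : ℝ × ℝ => fderiv ℝ G (m x) (0,1) :=
      (hG'c.comp hmc).clm_apply continuous_const
    have h3 : Continuous fun x : ℝ × ℝ => G (m x) := hGc.comp hmc
    fun_prop
  have div := integral2_divergence_prod_of_hasFDerivAt_off_countable f g f' g' 0 (-1) 1 1 ∅
    countable_empty
    (Continuous.continuousOn (by
      rw [hf]; have h3 : Continuous fun x : ℝ × ℝ => G (m x) := hGc.comp hmc
      fun_prop))
    (Continuous.continuousOn (by
      rw [hg]; have h3 : Continuous fun x : ℝ × ℝ => G (m x) := hGc.comp hmc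
      fun_prop))
    (fun x _ => hfd x) (fun x _ => hgd x)
    (hcont.continuousOn.integrableOn_compact (isCompact_uIcc.prod isCompact_uIcc))
  have e1 : (∫ s in (0:ℝ)..1, ∫ y in (-(b*(1-s)))..(b*(1-s)),
      (2 * G (s,y) + s * fderiv ℝ G (s,y) (1,0) + y * fderiv ℝ G (s,y) (0,1))) =
      b * (∫ x in (0:ℝ)..1, ∫ y in (-1:ℝ)..1, f' (x, y) (1, 0) + g' (x, y) (0, 1)) := by
    rw [← intervalIntegral.integral_const_mul]
    apply intervalIntegral.integral_congr
    intro s _
    have h := intervalIntegral.mul_integral_comp_mul_left (a := -1) (b := 1) (c := b*(1-s))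
      (f := fun y => 2 * G (s,y) + s * fderiv ℝ G (s,y) (1,0) + y * fderiv ℝ G (s,y) (0,1))
    simp only [mul_neg, mul_one] at h
    simp only
    rw [← h, ← intervalIntegral.integral_const_mul, ← intervalIntegral.integral_const_mul]
    apply intervalIntegral.integral_congr
    intro y _
    simp only [hval, hm]
    ring
  rw [e1, div]
  congr 1
  simp only [hf, hg, hm]
  simp
  rw [← intervalIntegral.integral_add]
  · apply Continuous.intervalIntegrable
    exact hGc.comp (by fun_prop)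
  · apply Continuous.intervalIntegrable
    exact hGc.comp (by fun_prop)

/-- continuity of integrals with variable end points -/
theorem continuous_iter {X : Type*} [TopologicalSpace X] {F : X → ℝ → ℝ}
    (hF : Continuous (Function.uncurry F)) {u v : X → ℝ}
    (hu : Continuous u) (hv : Continuous v) :
    Continuous fun s => ∫ y in (u s)..(v s), F s y := by
  have h1 : (fun s => ∫ y in (u s)..(v s), F s y) =
      fun s => (∫ y in (0:ℝ)..(v s), F s y) - ∫ y in (0:ℝ)..(u s), F s y := by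
    funext s
    rw [intervalIntegral.integral_interval_sub_left]
    · exact (hF.comp (by fun_prop : Continuous fun y : ℝ => (s, y))).intervalIntegrable _ _
    · exact (hF.comp (by fun_prop : Continuous fun y : ℝ => (s, y))).intervalIntegrable _ _
  rw [h1]
  exact (intervalIntegral.continuous_parametric_intervalIntegral_of_continuous hF hv).sub
    (intervalIntegral.continuous_parametric_intervalIntegral_of_continuous hF hu)

/-- linear combination of iterated integrals over the triangle -/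
theorem iter_comb {A B C : ℝ → ℝ → ℝ} (hA : Continuous (Function.uncurry A))
    (hB : Continuous (Function.uncurry B)) (hC : Continuous (Function.uncurry C))
    {u v : ℝ → ℝ} (hu : Continuous u) (hv : Continuous v) (β γ p q : ℝ) :
    ∫ s in p..q, ∫ y in (u s)..(v s), (A s y + β * B s y - γ * C s y) =
      (∫ s in p..q, ∫ y in (u s)..(v s), A s y) + β * (∫ s in p..q, ∫ y in (u s)..(v s), B s y)
      - γ * (∫ s in p..q, ∫ y in (u s)..(v s), C s y) := by
  have cA := continuous_iter hA hu hv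
  have cB := continuous_iter hB hu hv
  have cC := continuous_iter hC hu hv
  rw [← intervalIntegral.integral_const_mul, ← intervalIntegral.integral_const_mul,
      ← intervalIntegral.integral_add, ← intervalIntegral.integral_sub]
  · apply intervalIntegral.integral_congr
    intro s _
    have hA' : Continuous (A s) := hA.comp (by fun_prop : Continuous fun y : ℝ => (s, y))
    have hB' : Continuous (B s) := hB.comp (by fun_prop : Continuous fun y : ℝ => (s, y))
    have hC' : Continuous (C s) := hC.comp (by fun_prop : Continuous fun y : ℝ => (s, y))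
    simp only
    rw [← intervalIntegral.integral_const_mul, ← intervalIntegral.integral_const_mul,
      ← intervalIntegral.integral_add, ← intervalIntegral.integral_sub]
    · exact Continuous.intervalIntegrable (by fun_prop) _ _
    · exact Continuous.intervalIntegrable (by fun_prop) _ _
    · exact Continuous.intervalIntegrable (by fun_prop) _ _
    · exact Continuous.intervalIntegrable (by fun_prop) _ _
  · exact (cA.add (continuous_const.mul cB)).intervalIntegrable _ _
  · exact (continuous_const.mul cC).intervalIntegrable _ _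
  · exact cA.intervalIntegrable _ _
  · exact (continuous_const.mul cB).intervalIntegrable _ _

theorem slice_two {g : ℝ × ℝ → ℝ} (hg : ContDiff ℝ 1 g) {b β : ℝ} (hb : 0 < b) :
    (2*β - β^2*(1+b^2)) * (∫ s in (0:ℝ)..1, ∫ y in (-(b*(1-s)))..(b*(1-s)), g (s,y)^2) ≤
    (∫ s in (0:ℝ)..1, ∫ y in (-(b*(1-s)))..(b*(1-s)),
      ((fderiv ℝ g (s,y) (1,0))^2 + (fderiv ℝ g (s,y) (0,1))^2))
    + (β*b)*(∫ s in (0:ℝ)..1, (g (s,b*(1-s))^2 + g (s,-(b*(1-s)))^2)) := by
  have hgc : Continuous g := hg.continuous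
  have hg'c : Continuous (fderiv ℝ g) := hg.continuous_fderiv (by norm_num)
  have hgd : ∀ x, HasFDerivAt g (fderiv ℝ g x) x := fun x =>
    (hg.differentiable (by norm_num) x).hasFDerivAt
  have hG : ContDiff ℝ 1 (fun x => g x ^ 2) := hg.pow 2
  have hGf : ∀ x v, fderiv ℝ (fun x => g x ^ 2) x v = 2 * g x * fderiv ℝ g x v := by
    intro x v
    have h := (hgd x).pow 2
    rw [h.fderiv]
    simp
  have tri := tri_identity hG b
  simp only [hGf] at tri
  have c1 : Continuous fun x : ℝ × ℝ => fderiv ℝ g x (1,0) := hg'c.clm_apply continuous_const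
  have c2 : Continuous fun x : ℝ × ℝ => fderiv ℝ g x (0,1) := hg'c.clm_apply continuous_const
  have key : 0 ≤ ∫ s in (0:ℝ)..1, ∫ y in (-(b*(1-s)))..(b*(1-s)),
      (((fderiv ℝ g (s,y) (1,0))^2 + (fderiv ℝ g (s,y) (0,1))^2)
       + β * (2 * g (s, y) ^ 2 + s * (2 * g (s, y) * fderiv ℝ g (s, y) (1, 0)) +
            y * (2 * g (s, y) * fderiv ℝ g (s, y) (0, 1)))
       - (2*β - β^2*(1+b^2)) * g (s,y)^2) := by
    apply intervalIntegral.integral_nonneg (by norm_num)
    intro s hs
    have hs0 : 0 ≤ s := hs.1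
    have hs1 : s ≤ 1 := hs.2
    have h1s : 0 ≤ b * (1 - s) := by
      apply mul_nonneg hb.le; linarith
    apply intervalIntegral.integral_nonneg (by linarith)
    intro y hy
    have hy2 : y ^ 2 ≤ b ^ 2 := by
      have h1 : |y| ≤ b * (1 - s) := abs_le.mpr ⟨hy.1, hy.2⟩
      have h2 : |y| ≤ b := by nlinarith
      calc y ^ 2 = |y| ^ 2 := (sq_abs y).symm
        _ ≤ b ^ 2 := by gcongr
    have hs2 : s ^ 2 ≤ 1 := by nlinarith
    set p := fderiv ℝ g (s, y) (1, 0)
    set q := fderiv ℝ g (s, y) (0, 1)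
    set G := g (s, y)
    have : p ^ 2 + q ^ 2 + β * (2 * G ^ 2 + s * (2 * G * p) + y * (2 * G * q)) -
        (2 * β - β ^ 2 * (1 + b ^ 2)) * G ^ 2 =
        (p + β * s * G) ^ 2 + (q + β * y * G) ^ 2 + (β * G) ^ 2 * (1 - s ^ 2 + (b ^ 2 - y ^ 2)) := by
      ring
    rw [this]
    have : 0 ≤ 1 - s ^ 2 + (b ^ 2 - y ^ 2) := by linarith
    positivity
  rw [iter_comb (A := fun s y => (fderiv ℝ g (s,y) (1,0))^2 + (fderiv ℝ g (s,y) (0,1))^2)
      (B := fun s y => (2 * g (s, y) ^ 2 + s * (2 * g (s, y) * fderiv ℝ g (s, y) (1, 0)) +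
            y * (2 * g (s, y) * fderiv ℝ g (s, y) (0, 1))))
      (C := fun s y => g (s,y)^2) (by fun_prop) (by fun_prop) (by fun_prop)
      (by fun_prop) (by fun_prop), tri] at key
  nlinarith [key]

end Pool.Agent.Lib.MP_d01728_an
end
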