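import Mathlib

section

open Set

namespace Pool.Agent.Lib.MP_d01728_an

/-- clipped linear function -/
noncomputable def cl (z : ℝ) : ℝ := max (-1) (min 1 (z / 400))

/-- the cut-off function, odd and `C^1`, equal to the sign outside of `[-400,400]` -/
noncomputable def S (z : ℝ) : ℝ := (3 * cl z - cl z ^ 3) / 2

/-- its derivative -/
noncomputable def Sd (z : ℝ) : ℝ := 3 / 2 * (1 - cl z ^ 2) / 400

theorem cl_mem (z : ℝ) : cl z ∈ Icc (-1:ℝ) 1 :=
  ⟨le_max_left _ _, max_le (by norm_num) (min_le_left _ _)⟩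

theorem cl_of_abs_lt {z : ℝ} (hz : |z| ≤ 400) : cl z = z / 400 := by
  rw [abs_le] at hz
  unfold cl
  rw [min_eq_right, max_eq_right]
  · rw [le_div_iff₀ (by norm_num)]; linarith
  · rw [div_le_iff₀ (by norm_num)]; linarith

theorem cl_of_ge {z : ℝ} (hz : 400 ≤ z) : cl z = 1 := by
  unfold cl
  rw [min_eq_left, max_eq_right]
  · norm_num
  · rw [le_div_iff₀ (by norm_num)]; linarith

theorem cl_of_le {z : ℝ} (hz : z ≤ -400) : cl z = -1 := by
  unfold cl
  apply max_eq_left
  apply (min_le_right _ _).trans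
  rw [div_le_iff₀ (by norm_num)]; linarith

theorem cl_neg (z : ℝ) : cl (-z) = - cl z := by
  rcases le_total |z| 400 with h | h
  · rw [cl_of_abs_lt h, cl_of_abs_lt (by rwa [abs_neg])]; ring
  · rcases le_abs.mp h with h' | h'
    · rw [cl_of_ge h', cl_of_le (by linarith)]
    · rw [cl_of_le (by linarith : z ≤ -400), cl_of_ge (by linarith)]; norm_num

theorem S_neg (z : ℝ) : S (-z) = - S z := by
  unfold S; rw [cl_neg]; ring

theorem continuous_cl : Continuous cl := by unfold cl; fun_prop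

theorem continuous_Sd : Continuous Sd := by
  have := continuous_cl
  unfold Sd; fun_prop

theorem continuous_S : Continuous S := by
  have := continuous_cl
  unfold S; fun_prop

theorem S_sq_le (z : ℝ) : S z ^ 2 ≤ 1 := by
  obtain ⟨h1, h2⟩ := cl_mem z
  unfold S
  have : 1 - ((3 * cl z - cl z ^ 3) / 2) ^ 2 = (1 - cl z ^ 2) ^ 2 * (4 - cl z ^ 2) / 4 := by ring
  have h3 : cl z ^ 2 ≤ 1 := by nlinarith
  have : 0 ≤ (1 - cl z ^ 2) ^ 2 * (4 - cl z ^ 2) / 4 := by
    have : 0 ≤ 4 - cl z ^ 2 := by linarith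
    positivity
  linarith

/-- The quadratic-form inequality behind the localization. -/
theorem cut_ineq (z p q : ℝ) :
    -(3 / 160000) * q ^ 2 ≤ p ^ 2 - (S z * p + Sd z * q) ^ 2 := by
  obtain ⟨h1, h2⟩ := cl_mem z
  set c := cl z with hc
  have h3 : c ^ 2 ≤ 1 := by nlinarith
  have h4 : 0 ≤ 4 - c ^ 2 := by linarith
  unfold S Sd
  rw [← hc]
  have hid : (p ^ 2 - ((3 * c - c ^ 3) / 2 * p + 3 / 2 * (1 - c ^ 2) / 400 * q) ^ 2 +
      3 / 160000 * q ^ 2) * (4 - c ^ 2) =
      ((1 - c ^ 2) * (4 - c ^ 2) / 2 * p - (3 * c - c ^ 3) * (3 / 800) * q) ^ 2 +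
      q ^ 2 * (12 * (1 - c ^ 2) / 640000) := by
    ring
  have h5 : 0 < 4 - c ^ 2 := by linarith
  have h6 : 0 ≤ (p ^ 2 - ((3 * c - c ^ 3) / 2 * p + 3 / 2 * (1 - c ^ 2) / 400 * q) ^ 2 +
      3 / 160000 * q ^ 2) * (4 - c ^ 2) := by
    rw [hid]
    have : 0 ≤ 1 - c ^ 2 := by linarith
    positivity
  have h7 := nonneg_of_mul_nonneg_left h6 h5
  linarith

theorem cut_ineq_out {z : ℝ} (hz : 400 ≤ |z|) (p q : ℝ) :
    0 ≤ p ^ 2 - (S z * p + Sd z * q) ^ 2 := by
  have h : cl z ^ 2 = 1 := by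
    rcases le_abs.mp hz with h' | h'
    · rw [cl_of_ge h']; norm_num
    · rw [cl_of_le (by linarith)]; norm_num
  have h1 : Sd z = 0 := by unfold Sd; rw [h]; norm_num
  have h2 : S z ^ 2 = 1 := by
    unfold S
    have : ((3 * cl z - cl z ^ 3) / 2) ^ 2 = cl z ^ 2 * (3 - cl z ^ 2) ^ 2 / 4 := by ring
    rw [this, h]; norm_num
  rw [h1]
  have : p ^ 2 - (S z * p + 0 * q) ^ 2 = (1 - S z ^ 2) * p ^ 2 := by ring
  rw [this, h2]; simp

theorem S_sq_out {z : ℝ} (hz : 400 ≤ |z|) : S z ^ 2 = 1 := by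
  have h : cl z ^ 2 = 1 := by
    rcases le_abs.mp hz with h' | h'
    · rw [cl_of_ge h']; norm_num
    · rw [cl_of_le (by linarith)]; norm_num
  unfold S
  have : ((3 * cl z - cl z ^ 3) / 2) ^ 2 = cl z ^ 2 * (3 - cl z ^ 2) ^ 2 / 4 := by ring
  rw [this, h]; norm_num

theorem hasDerivAt_S (z : ℝ) : HasDerivAt S (Sd z) z := by
  rcases lt_trichotomy |z| 400 with h | h | h
  · have h1 : HasDerivAt (fun x : ℝ => (3 * (x / 400) - (x / 400) ^ 3) / 2)
        ((3 * (1 / 400) - 3 * (z / 400) ^ 2 * (1 / 400)) / 2) z := by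
      have h2 : HasDerivAt (fun x : ℝ => x / 400) (1 / 400) z := (hasDerivAt_id' z).div_const 400
      have h3 := ((h2.const_mul 3).sub (h2.pow 3)).div_const 2
      refine h3.congr_deriv ?_
      norm_num
    have h4 : Sd z = (3 * (1 / 400) - 3 * (z / 400) ^ 2 * (1 / 400)) / 2 := by
      unfold Sd; rw [cl_of_abs_lt h.le]; ring
    rw [h4]
    apply h1.congr_of_eventuallyEq
    have : ∀ᶠ x in nhds z, |x| < 400 := (continuous_abs.tendsto z).eventually (gt_mem_nhds h)
    filter_upwards [this] with x hx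
    unfold S; rw [cl_of_abs_lt hx.le]
  · -- boundary points: quadratic bound
    have hSd : Sd z = 0 := by
      unfold Sd; rw [cl_of_abs_lt h.le]
      have : z ^ 2 = 400 ^ 2 := by rw [← h, sq_abs]
      rw [div_pow, this]; norm_num
    rw [hSd, hasDerivAt_iff_isLittleO]
    have hbound : ∀ x, ‖S x - S z - (x - z) • (0:ℝ)‖ ≤ 2 * ‖(x - z) ^ 2‖ := by
      intro x
      obtain ⟨h1, h2⟩ := cl_mem x
      have hlip : |cl x - cl z| ≤ |x - z| / 400 := by
        have e : ∀ y : ℝ, cl y = max (-1) (min 1 (y / 400)) := fun y => rfl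
        rw [e x, e z]
        calc |max (-1) (min 1 (x / 400)) - max (-1) (min 1 (z / 400))|
            ≤ |min 1 (x / 400) - min 1 (z / 400)| := by
              have := abs_max_sub_max_le_max (-1) (min 1 (x / 400)) (-1) (min 1 (z / 400))
              simpa using this
          _ ≤ |x / 400 - z / 400| := by
              have := abs_min_sub_min_le_max 1 (x / 400) 1 (z / 400)
              simpa using this
          _ = |x - z| / 400 := by
              rw [← sub_div, abs_div]; norm_num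
      have hsq : (cl x - cl z) ^ 2 ≤ (x - z) ^ 2 / 160000 := by
        rw [← sq_abs (cl x - cl z), ← sq_abs (x - z)]
        have := abs_nonneg (cl x - cl z)
        have := abs_nonneg (x - z)
        nlinarith
      have hcz : cl z = 1 ∨ cl z = -1 := by
        rcases abs_eq (by norm_num : (0:ℝ) ≤ 400) |>.mp h with h' | h'
        · left; exact cl_of_ge h'.ge
        · right; exact cl_of_le h'.le
      have hd : |S x - S z| ≤ 2 * (cl x - cl z) ^ 2 := by
        unfold S
        rcases hcz with h' | h'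
        · rw [h']
          have : (3 * cl x - cl x ^ 3) / 2 - (3 * 1 - 1 ^ 3) / 2 =
            -((cl x - 1) ^ 2 * (cl x + 2) / 2) := by ring
          rw [this, abs_neg, abs_of_nonneg (by
            have : 0 ≤ cl x + 2 := by linarith
            positivity)]
          nlinarith [sq_nonneg (cl x - 1)]
        · rw [h']
          have : (3 * cl x - cl x ^ 3) / 2 - (3 * (-1) - (-1) ^ 3) / 2 =
            ((cl x - (-1)) ^ 2 * (2 - cl x) / 2) := by ring
          rw [this, abs_of_nonneg (by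
            have : 0 ≤ 2 - cl x := by linarith
            positivity)]
          nlinarith [sq_nonneg (cl x - (-1))]
      rw [smul_zero, sub_zero, Real.norm_eq_abs, Real.norm_eq_abs,
        abs_of_nonneg (sq_nonneg (x - z))]
      nlinarith [sq_nonneg (x - z)]
    have hO : (fun x => S x - S z - (x - z) • (0:ℝ)) =O[nhds z] fun x => (x - z) ^ 2 :=
      Asymptotics.IsBigO.of_bound 2 (Filter.Eventually.of_forall hbound)
    refine hO.trans_isLittleO ?_
    have : (fun x : ℝ => (x - z) ^ 2) = fun x => (x - z) * (x - z) := by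
      funext x; ring
    rw [this]
    have h1 : (fun x : ℝ => x - z) =o[nhds z] (fun _ => (1:ℝ)) := by
      rw [Asymptotics.isLittleO_one_iff]
      have : Filter.Tendsto (fun x : ℝ => x - z) (nhds z) (nhds (z - z)) :=
        (continuous_id.sub continuous_const).tendsto z
      rwa [sub_self] at this
    have h2 := h1.mul_isBigO (Asymptotics.isBigO_refl (fun x : ℝ => x - z) (nhds z))
    simpa using h2
  · have hcl : cl z = 1 ∨ cl z = -1 := by
      rcases lt_abs.mp h with h' | h'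
      · left; exact cl_of_ge h'.le
      · right; exact cl_of_le (by linarith)
    have hSd : Sd z = 0 := by
      unfold Sd
      rcases hcl with h' | h' <;> rw [h'] <;> norm_num
    rw [hSd]
    apply (hasDerivAt_const z (S z)).congr_of_eventuallyEq
    rcases lt_abs.mp h with h' | h'
    · filter_upwards [lt_mem_nhds h'] with x hx
      unfold S; rw [cl_of_ge hx.le, cl_of_ge h'.le]
    · have h'' : z < -400 := by linarith
      filter_upwards [gt_mem_nhds h''] with x hx
      unfold S; rw [cl_of_le hx.le, cl_of_le h''.le]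

theorem contDiff_S : ContDiff ℝ 1 S := by
  rw [contDiff_one_iff_deriv]
  refine ⟨fun z => (hasDerivAt_S z).differentiableAt, ?_⟩
  have : deriv S = Sd := funext fun z => (hasDerivAt_S z).deriv
  rw [this]
  exact continuous_Sd

/-- the trial function for the lowest eigenvalue -/
noncomputable def phi (z : ℝ) : ℝ := (max (z - 400) 0) ^ 2

theorem hasDerivAt_phi (z : ℝ) : HasDerivAt phi (2 * max (z - 400) 0) z := by
  rcases lt_trichotomy z 400 with h | h | h
  · rw [max_eq_right (by linarith), mul_zero]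
    apply (hasDerivAt_const z (0:ℝ)).congr_of_eventuallyEq
    filter_upwards [gt_mem_nhds h] with x hx
    unfold phi; rw [max_eq_right (by linarith)]; norm_num
  · rw [h, sub_self, max_self, mul_zero, hasDerivAt_iff_isLittleO]
    have hbound : ∀ x, ‖phi x - phi 400 - (x - 400) • (0:ℝ)‖ ≤ 1 * ‖(x - 400) ^ 2‖ := by
      intro x
      unfold phi
      rw [smul_zero, sub_zero, sub_self, max_self]
      rw [Real.norm_eq_abs, Real.norm_eq_abs, abs_of_nonneg (sq_nonneg (x - 400)), one_mul]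
      rcases le_total (x - 400) 0 with h' | h'
      · rw [max_eq_right h']; simp; positivity
      · rw [max_eq_left h']; simp
    have hO : (fun x => phi x - phi 400 - (x - 400) • (0:ℝ)) =O[nhds 400]
        fun x => (x - 400) ^ 2 :=
      Asymptotics.IsBigO.of_bound 1 (Filter.Eventually.of_forall hbound)
    refine hO.trans_isLittleO ?_
    have : (fun x : ℝ => (x - 400) ^ 2) = fun x => (x - 400) * (x - 400) := by
      funext x; ring
    rw [this]
    have h1 : (fun x : ℝ => x - 400) =o[nhds 400] (fun _ => (1:ℝ)) := by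
      rw [Asymptotics.isLittleO_one_iff]
      have : Filter.Tendsto (fun x : ℝ => x - 400) (nhds 400) (nhds (400 - 400)) :=
        (continuous_id.sub continuous_const).tendsto 400
      rwa [sub_self] at this
    have h2 := h1.mul_isBigO (Asymptotics.isBigO_refl (fun x : ℝ => x - 400) (nhds 400))
    simpa using h2
  · have h1 : HasDerivAt (fun x : ℝ => (x - 400) ^ 2) (2 * (z - 400)) z := by
      have h3 := (((hasDerivAt_id' z).sub_const 400).pow 2)
      refine h3.congr_deriv ?_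
      norm_num
    rw [max_eq_left (by linarith)]
    apply h1.congr_of_eventuallyEq
    filter_upwards [lt_mem_nhds h] with x hx
    unfold phi; rw [max_eq_left (by linarith)]

theorem contDiff_phi : ContDiff ℝ 1 phi := by
  rw [contDiff_one_iff_deriv]
  refine ⟨fun z => (hasDerivAt_phi z).differentiableAt, ?_⟩
  have : deriv phi = fun z => 2 * max (z - 400) 0 := funext fun z => (hasDerivAt_phi z).deriv
  rw [this]
  fun_prop

end Pool.Agent.Lib.MP_d01728_an
end

section

section

open MeasureTheory Set Measure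
open scoped ENNReal NNReal

namespace Pool.Agent.Lib.MP_d01728_an

abbrev E2 := EuclideanSpace ℝ (Fin 2)
abbrev E3 := EuclideanSpace ℝ (Fin 3)

noncomputable def e3 : E3 ≃ᵐ ℝ × (ℝ × ℝ) :=
  ((MeasurableEquiv.toLp 2 (Fin 3 → ℝ)).symm.trans
    (MeasurableEquiv.piFinSuccAbove (fun _ : Fin 3 => ℝ) 0)).trans
   (MeasurableEquiv.prodCongr (MeasurableEquiv.refl ℝ) (MeasurableEquiv.finTwoArrow))

theorem e3_apply (x : E3) : e3 x = (x 0, (x 1, x 2)) := rfl

theorem e3_symm_apply (z s y : ℝ) : e3.symm (z, (s, y)) = !₂[z, s, y] := by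
  rw [MeasurableEquiv.symm_apply_eq, e3_apply]
  simp

theorem mp_e3 : MeasurePreserving e3 volume volume := by
  have h1 := EuclideanSpace.volume_preserving_symm_measurableEquiv_toLp (Fin 3)
  have h2 := volume_preserving_piFinSuccAbove (fun _ : Fin 3 => ℝ) 0
  have h3 : MeasurePreserving (MeasurableEquiv.prodCongr (MeasurableEquiv.refl ℝ)
      (MeasurableEquiv.finTwoArrow (α := ℝ))) volume volume :=
    (MeasurePreserving.id volume).prod (volume_preserving_finTwoArrow ℝ)
  exact h3.comp (h2.comp h1)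

def Om (b : ℝ) : Set E3 := {x | 0 < x 1 ∧ |x 2| < b * (1 - x 1) ∧ |x 0| < 500 - 100 * x 1}

def Om3 (b : ℝ) : Set (ℝ × (ℝ × ℝ)) :=
  {p | 0 < p.2.1 ∧ |p.2.2| < b * (1 - p.2.1) ∧ |p.1| < 500 - 100 * p.2.1}

noncomputable def sg (z : ℝ) : ℝ := min 1 ((500 - |z|) / 100)

theorem setIntegral_Om {b : ℝ} (F : E3 → ℝ) :
    ∫ x in Om b, F x = ∫ p in Om3 b, F (e3.symm p) := by
  have h := mp_e3.symm.setIntegral_preimage_emb e3.symm.measurableEmbedding F (Om b)
  rw [← h]
  congr 1

theorem isOpen_Om3 (b : ℝ) : IsOpen (Om3 b) := by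
  have : Om3 b = {p | 0 < p.2.1} ∩ ({p | |p.2.2| < b * (1 - p.2.1)} ∩
      {p | |p.1| < 500 - 100 * p.2.1}) := rfl
  rw [this]
  refine (isOpen_lt (by fun_prop) (by fun_prop)).inter
    ((isOpen_lt (by fun_prop) (by fun_prop)).inter (isOpen_lt (by fun_prop) (by fun_prop)))

theorem Om3_subset {b : ℝ} (hb : 0 < b) : Om3 b ⊆ Icc (-500) 500 ×ˢ (Icc 0 1 ×ˢ Icc (-b) b) := by
  rintro ⟨z, s, y⟩ ⟨h1, h2, h3⟩
  simp only at h1 h2 h3
  have h4 : 0 < b * (1 - s) := lt_of_le_of_lt (abs_nonneg _) h2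
  have h5 : s < 1 := by
    by_contra h
    push Not at h
    nlinarith
  rw [abs_lt] at h2 h3
  refine ⟨⟨by simp only; linarith, by simp only; linarith⟩, ⟨⟨h1.le, h5.le⟩,
    ⟨by simp only; nlinarith, by simp only; nlinarith⟩⟩⟩

theorem integral_Om3 {b : ℝ} (hb : 0 < b) {F : ℝ × (ℝ × ℝ) → ℝ} (hF : Continuous F) :
    ∫ p in Om3 b, F p = ∫ z in (-500:ℝ)..500, ∫ s in (0:ℝ)..(sg z),
      ∫ y in (-(b*(1-s)))..(b*(1-s)), F (z, (s, y)) := by
  have hmeas : MeasurableSet (Om3 b) := (isOpen_Om3 b).measurableSet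
  have hcomp : IsCompact (Icc (-500:ℝ) 500 ×ˢ (Icc (0:ℝ) 1 ×ˢ Icc (-b) b)) :=
    isCompact_Icc.prod (isCompact_Icc.prod isCompact_Icc)
  have hint : IntegrableOn F (Om3 b) volume :=
    (hF.continuousOn.integrableOn_compact hcomp).mono_set (Om3_subset hb)
  rw [← integral_indicator hmeas]
  have hint' : Integrable ((Om3 b).indicator F) volume := by
    rwa [integrable_indicator_iff hmeas]
  rw [Measure.volume_eq_prod, integral_prod _ (by rwa [← Measure.volume_eq_prod])]
  have inner : ∀ z : ℝ, ∫ q : ℝ × ℝ, (Om3 b).indicator F (z, q) =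
      (Ioc (-500:ℝ) 500).indicator (fun z => ∫ s in (0:ℝ)..(sg z),
      ∫ y in (-(b*(1-s)))..(b*(1-s)), F (z, (s, y))) z := by
    intro z
    by_cases hz : z ∈ Ioc (-500:ℝ) 500
    · rw [indicator_of_mem hz]
      have hsec : MeasurableSet {q : ℝ × ℝ | (z, q) ∈ Om3 b} :=
        (measurable_prodMk_left (x := z)) hmeas
      have hFz : Continuous fun q : ℝ × ℝ => F (z, q) := hF.comp (by fun_prop)
      have hintz : Integrable (fun q : ℝ × ℝ => (Om3 b).indicator F (z, q)) volume := by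
        have : (fun q : ℝ × ℝ => (Om3 b).indicator F (z, q)) =
            {q : ℝ × ℝ | (z, q) ∈ Om3 b}.indicator (fun q => F (z, q)) := by
          rfl
        rw [this, integrable_indicator_iff hsec]
        refine (hFz.continuousOn.integrableOn_compact
          (isCompact_Icc.prod isCompact_Icc : IsCompact (Icc (0:ℝ) 1 ×ˢ Icc (-b) b))).mono_set ?_
        intro q hq
        exact (Om3_subset hb hq).2
      rw [Measure.volume_eq_prod, integral_prod _ (by rwa [← Measure.volume_eq_prod])]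
      have hsg : 0 ≤ sg z := by
        have : |z| ≤ 500 := abs_le.mpr ⟨hz.1.le, hz.2⟩
        exact le_min (by norm_num) (by apply div_nonneg <;> linarith)
      rw [intervalIntegral.integral_of_le hsg, integral_Ioc_eq_integral_Ioo,
        ← integral_indicator measurableSet_Ioo]
      congr 1
      ext s
      by_cases hs : s ∈ Ioo 0 (sg z)
      · rw [indicator_of_mem hs]
        have hs1 : s < 1 := lt_of_lt_of_le hs.2 (min_le_left _ _)
        have hs2 : s < (500 - |z|) / 100 := lt_of_lt_of_le hs.2 (min_le_right _ _)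
        have hs3 : |z| < 500 - 100 * s := by
          rw [lt_div_iff₀ (by norm_num)] at hs2; linarith
        have hc : 0 < b * (1 - s) := mul_pos hb (by linarith)
        rw [intervalIntegral.integral_of_le (by linarith), integral_Ioc_eq_integral_Ioo,
          ← integral_indicator measurableSet_Ioo]
        congr 1
        ext y
        have : (z, (s, y)) ∈ Om3 b ↔ y ∈ Ioo (-(b * (1 - s))) (b * (1 - s)) := by
          constructor
          · rintro ⟨_, h2, _⟩
            exact abs_lt.mp h2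
          · intro h
            exact ⟨hs.1, abs_lt.mpr h, hs3⟩
        simp only [indicator, this]
      · rw [indicator_of_notMem hs]
        have : ∀ y, (Om3 b).indicator F (z, (s, y)) = 0 := by
          intro y
          apply indicator_of_notMem
          rintro ⟨h1, h2, h3⟩
          apply hs
          simp only at h1 h2 h3
          refine ⟨h1, lt_min ?_ ?_⟩
          · have h4 : 0 < b * (1 - s) := lt_of_le_of_lt (abs_nonneg _) h2
            by_contra h
            push Not at h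
            nlinarith
          · rw [lt_div_iff₀ (by norm_num)]; linarith
        simp [this]
    · rw [indicator_of_notMem hz]
      have : ∀ q, (Om3 b).indicator F (z, q) = 0 := by
        intro q
        apply indicator_of_notMem
        rintro ⟨h1, h2, h3⟩
        apply hz
        simp only at h1 h2 h3
        rw [abs_lt] at h3
        exact ⟨by linarith, by linarith⟩
      simp [this]
  simp only [inner]
  rw [integral_indicator measurableSet_Ioc, intervalIntegral.integral_of_le (by norm_num)]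

theorem sg_nonneg {z : ℝ} (hz : z ∈ Icc (-500:ℝ) 500) : 0 ≤ sg z := by
  have : |z| ≤ 500 := abs_le.mpr ⟨hz.1, hz.2⟩
  exact le_min (by norm_num) (by apply div_nonneg <;> linarith)

noncomputable def e2 : E2 ≃ᵐ ℝ × ℝ :=
  ((MeasurableEquiv.toLp 2 (Fin 2 → ℝ)).symm.trans (MeasurableEquiv.finTwoArrow))

theorem e2_apply (x : E2) : e2 x = (x 0, x 1) := rfl

theorem e2_symm_apply (z s : ℝ) : e2.symm (z, s) = !₂[z, s] := by
  rw [MeasurableEquiv.symm_apply_eq, e2_apply]
  simp

theorem mp_e2 : MeasurePreserving e2 volume volume := by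
  have h1 := EuclideanSpace.volume_preserving_symm_measurableEquiv_toLp (Fin 2)
  have h2 := volume_preserving_finTwoArrow ℝ
  exact h2.comp h1

theorem ae_eq_of_between {a : ℝ} {T : Set ℝ} (h1 : Ioo 0 a ⊆ T) (h2 : T ⊆ Icc 0 a) :
    T =ᵐ[volume] Ioc 0 a := by
  have h3 : (Ioo 0 a : Set ℝ) =ᵐ[volume] Icc 0 a := Ioo_ae_eq_Icc
  have h4 : (Ioo 0 a : Set ℝ) =ᵐ[volume] Ioc 0 a := Ioo_ae_eq_Ioc
  have h5 : T =ᵐ[volume] Icc 0 a := by
    apply Filter.EventuallyLE.antisymm
    · exact Filter.Eventually.of_forall h2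
    · exact h3.symm.le.trans (Filter.Eventually.of_forall h1)
  exact h5.trans (h3.symm.trans h4)

theorem setIntegral_R {S : Set E2} (hS : MeasurableSet S)
    (h1 : ∀ z s, z ∈ Icc (-500:ℝ) 500 → s ∈ Ioo 0 (sg z) → !₂[z, s] ∈ S)
    (h2 : ∀ z s, !₂[z, s] ∈ S → z ∈ Icc (-500:ℝ) 500 ∧ s ∈ Icc 0 (sg z))
    {G : E2 → ℝ} (hG : Continuous G) :
    ∫ q in S, G q = ∫ z in (-500:ℝ)..500, ∫ s in (0:ℝ)..(sg z), G !₂[z, s] := by
  have h := mp_e2.symm.setIntegral_preimage_emb e2.symm.measurableEmbedding G S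
  rw [← h]
  set S' : Set (ℝ × ℝ) := e2.symm ⁻¹' S with hS'
  have hS'm : MeasurableSet S' := e2.symm.measurable hS
  have hmem : ∀ z s, (z, s) ∈ S' ↔ !₂[z, s] ∈ S := by
    intro z s; rw [hS', mem_preimage, e2_symm_apply]
  set F : ℝ × ℝ → ℝ := fun p => G !₂[p.1, p.2] with hF
  have hFc : Continuous F := by
    apply hG.comp
    fun_prop
  have hFG : (fun p => G (e2.symm p)) = F := by
    ext ⟨z, s⟩; rw [e2_symm_apply]
  rw [hFG]
  have hsub : S' ⊆ Icc (-500:ℝ) 500 ×ˢ Icc (0:ℝ) 1 := by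
    rintro ⟨z, s⟩ hp
    rw [hmem] at hp
    obtain ⟨hz, hs⟩ := h2 z s hp
    exact ⟨hz, hs.1, hs.2.trans (min_le_left _ _)⟩
  have hint : IntegrableOn F S' volume :=
    (hFc.continuousOn.integrableOn_compact (isCompact_Icc.prod isCompact_Icc)).mono_set hsub
  rw [← integral_indicator hS'm]
  have hint' : Integrable (S'.indicator F) volume := by
    rwa [integrable_indicator_iff hS'm]
  rw [Measure.volume_eq_prod, integral_prod _ (by rwa [← Measure.volume_eq_prod])]
  have inner : ∀ z : ℝ, ∫ s : ℝ, S'.indicator F (z, s) =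
      (Ioc (-500:ℝ) 500).indicator (fun z => ∫ s in (0:ℝ)..(sg z), G !₂[z, s]) z := by
    intro z
    by_cases hz : z ∈ Icc (-500:ℝ) 500
    · have hT : {s : ℝ | (z, s) ∈ S'} =ᵐ[volume] Ioc 0 (sg z) := by
        apply ae_eq_of_between
        · intro s hs
          exact (hmem z s).2 (h1 z s hz hs)
        · intro s hs
          exact (h2 z s ((hmem z s).1 hs)).2
      have hTm : MeasurableSet {s : ℝ | (z, s) ∈ S'} := (measurable_prodMk_left (x := z)) hS'm
      have e1 : (fun s : ℝ => S'.indicator F (z, s)) =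
          {s : ℝ | (z, s) ∈ S'}.indicator (fun s => F (z, s)) := rfl
      rw [e1, integral_indicator hTm, setIntegral_congr_set hT,
        ← intervalIntegral.integral_of_le (sg_nonneg hz)]
      by_cases hz' : z ∈ Ioc (-500:ℝ) 500
      · rw [indicator_of_mem hz']
      · rw [indicator_of_notMem hz']
        have : z = -500 := by
          by_contra hne
          exact hz' ⟨lt_of_le_of_ne hz.1 (Ne.symm hne), hz.2⟩
        rw [this]
        have : sg (-500) = 0 := by simp [sg]
        rw [this]; simp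
    · rw [indicator_of_notMem (fun h => hz ⟨h.1.le, h.2⟩)]
      have : ∀ s, S'.indicator F (z, s) = 0 := by
        intro s
        apply indicator_of_notMem
        intro hp
        exact hz (h2 z s ((hmem z s).1 hp)).1
      simp [this]
  refine (integral_congr_ae (Filter.Eventually.of_forall inner)).trans ?_
  rw [integral_indicator measurableSet_Ioc, intervalIntegral.integral_of_le (by norm_num)]

theorem volume_rect (a b c d : ℝ) (hab : a ≤ b) (_hcd : c ≤ d) :
    volume {q : E2 | q 0 ∈ Icc a b ∧ q 1 ∈ Icc c d} = ENNReal.ofReal ((b - a) * (d - c)) := by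
  have h : {q : E2 | q 0 ∈ Icc a b ∧ q 1 ∈ Icc c d} = e2 ⁻¹' (Icc a b ×ˢ Icc c d) := by
    ext q; rfl
  rw [h, mp_e2.measure_preimage (measurableSet_Icc.prod measurableSet_Icc).nullMeasurableSet,
    Measure.volume_eq_prod, Measure.prod_prod, Real.volume_Icc, Real.volume_Icc,
    ENNReal.ofReal_mul (by linarith)]

end Pool.Agent.Lib.MP_d01728_an
end

section

open MeasureTheory Set Measure
open scoped ENNReal NNReal

namespace Pool.Agent.Lib.MP_d01728_an

theorem exists_kappa : ∃ k : ℝ, 0 < k ∧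
    (μH[2] : Measure E2) = ENNReal.ofReal k • (volume : Measure E2) := by
  have : IsAddHaarMeasure (μH[2] : Measure E2) := by
    have h := isAddHaarMeasure_hausdorffMeasure (E := E2)
    have h2 : Module.finrank ℝ E2 = 2 := by simp
    rw [h2] at h
    exact_mod_cast h
  have h1 := isAddLeftInvariant_eq_smul (μH[2] : Measure E2) volume
  have h2 := addHaarScalarFactor_pos_of_isAddHaarMeasure (μH[2] : Measure E2) volume
  refine ⟨(addHaarScalarFactor (μH[2] : Measure E2) volume : ℝ), h2, ?_⟩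
  rw [ENNReal.ofReal_coe_nnreal]
  exact h1

theorem lintegral_image_le {X Y : Type*} [MetricSpace X] [MeasurableSpace X] [BorelSpace X]
    [MetricSpace Y] [MeasurableSpace Y] [BorelSpace Y] {ψ : X → Y} {K : ℝ≥0}
    (hψ : LipschitzWith K ψ) (R : Set X) {g : Y → ℝ≥0∞} (hg : Measurable g) {d : ℝ} (hd : 0 ≤ d) :
    ∫⁻ y in ψ '' R, g y ∂μH[d] ≤ (K : ℝ≥0∞) ^ d * ∫⁻ x in R, g (ψ x) ∂μH[d] := by
  have hm : Measurable ψ := hψ.continuous.measurable
  have hle : (μH[d] : Measure Y).restrict (ψ '' R) ≤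
      ((K : ℝ≥0∞) ^ d) • ((μH[d] : Measure X).restrict R).map ψ := by
    rw [Measure.le_iff]
    intro s hs
    rw [Measure.restrict_apply hs, Measure.smul_apply, Measure.map_apply hm hs,
      Measure.restrict_apply (hm hs), smul_eq_mul]
    have : s ∩ ψ '' R = ψ '' (ψ ⁻¹' s ∩ R) := by
      ext y; constructor
      · rintro ⟨hy, x, hx, rfl⟩
        exact ⟨x, ⟨hy, hx⟩, rfl⟩
      · rintro ⟨x, ⟨hx1, hx2⟩, rfl⟩
        exact ⟨hx1, x, hx2, rfl⟩
    rw [this]
    exact hψ.hausdorffMeasure_image_le hd _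
  calc ∫⁻ y in ψ '' R, g y ∂μH[d] ≤
      ∫⁻ y, g y ∂(((K : ℝ≥0∞) ^ d) • ((μH[d] : Measure X).restrict R).map ψ) :=
        lintegral_mono' hle le_rfl
    _ = (K : ℝ≥0∞) ^ d * ∫⁻ x in R, g (ψ x) ∂μH[d] := by
        rw [lintegral_smul_measure, lintegral_map hg hm, smul_eq_mul]

/-- If `p` is `1`-Lipschitz with `p (ψ q) = q` for `q ∈ R` then the surface integral over
`ψ '' R` is at least the integral over `R`. -/
theorem le_lintegral_image {X Y : Type*} [MetricSpace X] [MeasurableSpace X] [BorelSpace X]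
    [MetricSpace Y] [MeasurableSpace Y] [BorelSpace Y] {ψ : X → Y} {p : Y → X}
    (hψ : Measurable ψ)
    (hp : LipschitzWith 1 p) {R : Set X} (hR : ∀ q ∈ R, p (ψ q) = q)
    (hF : MeasurableSet (ψ '' R))
    {g : Y → ℝ≥0∞} (hg : Measurable g) {d : ℝ} (hd : 0 ≤ d) :
    ∫⁻ x in R, g (ψ x) ∂μH[d] ≤ ∫⁻ y in ψ '' R, g y ∂μH[d] := by
  have hm : Measurable p := hp.continuous.measurable
  have hle : (μH[d] : Measure X).restrict R ≤ ((μH[d] : Measure Y).restrict (ψ '' R)).map p := by
    rw [Measure.le_iff]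
    intro s hs
    rw [Measure.restrict_apply hs, Measure.map_apply hm hs, Measure.restrict_apply (hm hs)]
    have : s ∩ R ⊆ p '' (p ⁻¹' s ∩ ψ '' R) := by
      rintro q ⟨hq1, hq2⟩
      refine ⟨ψ q, ⟨?_, q, hq2, rfl⟩, hR q hq2⟩
      rw [mem_preimage, hR q hq2]; exact hq1
    calc μH[d] (s ∩ R) ≤ μH[d] (p '' (p ⁻¹' s ∩ ψ '' R)) := measure_mono this
      _ ≤ ((1 : ℝ≥0) : ℝ≥0∞) ^ d * μH[d] (p ⁻¹' s ∩ ψ '' R) := hp.hausdorffMeasure_image_le hd _
      _ = μH[d] (p ⁻¹' s ∩ ψ '' R) := by simp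
  calc ∫⁻ x in R, g (ψ x) ∂μH[d] ≤
      ∫⁻ x, g (ψ x) ∂(((μH[d] : Measure Y).restrict (ψ '' R)).map p) :=
        lintegral_mono' hle le_rfl
    _ = ∫⁻ y in ψ '' R, g (ψ (p y)) ∂μH[d] := by
        exact lintegral_map (hg.comp hψ) hm
    _ = ∫⁻ y in ψ '' R, g y ∂μH[d] := by
        apply setLIntegral_congr_fun hF
        rintro y ⟨q, hq, rfl⟩
        simp only [hR q hq]

/-- graph maps of the two slanted faces (`t = 1` and `t = -1`) -/
noncomputable def psi (b t : ℝ) (q : E2) : E3 := !₂[q 0, q 1, t * (b * (1 - q 1))]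

/-- graph map of the base -/
noncomputable def psiB (q : E2) : E3 := !₂[q 0, 0, q 1]

/-- graph maps of the two end faces -/
noncomputable def psiE (t : ℝ) (q : E2) : E3 := !₂[t * (500 - 100 * q 0), q 0, q 1]

noncomputable def pr (x : E3) : E2 := !₂[x 0, x 1]

def R2 : Set E2 := {q | 0 < q 1 ∧ q 1 < 1 ∧ |q 0| < 500 - 100 * q 1}
def R2c : Set E2 := {q | 0 ≤ q 1 ∧ q 1 ≤ 1 ∧ |q 0| ≤ 500 - 100 * q 1}
def Rect (a b c d : ℝ) : Set E2 := {q : E2 | q 0 ∈ Icc a b ∧ q 1 ∈ Icc c d}

theorem dist_sq_E3 (x y : E3) : dist x y ^ 2 =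
    (x 0 - y 0) ^ 2 + (x 1 - y 1) ^ 2 + (x 2 - y 2) ^ 2 := by
  rw [EuclideanSpace.dist_eq, Real.sq_sqrt (Finset.sum_nonneg fun i _ => sq_nonneg _),
    Fin.sum_univ_three]
  simp only [Real.dist_eq, sq_abs]

theorem dist_sq_E2 (x y : E2) : dist x y ^ 2 =
    (x 0 - y 0) ^ 2 + (x 1 - y 1) ^ 2 := by
  rw [EuclideanSpace.dist_eq, Real.sq_sqrt (Finset.sum_nonneg fun i _ => sq_nonneg _),
    Fin.sum_univ_two]
  simp only [Real.dist_eq, sq_abs]

theorem lipschitz_pr : LipschitzWith 1 pr := by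
  apply LipschitzWith.of_dist_le_mul
  intro x y
  rw [NNReal.coe_one, one_mul]
  apply le_of_sq_le_sq _ dist_nonneg
  rw [dist_sq_E2, dist_sq_E3]
  simp only [pr, PiLp.toLp_apply, Matrix.cons_val_zero, Matrix.cons_val_one]
  nlinarith [sq_nonneg (x 2 - y 2)]

theorem lipschitz_psi (b t : ℝ) (ht : t ^ 2 = 1) :
    LipschitzWith (Real.toNNReal (Real.sqrt (1 + b ^ 2))) (psi b t) := by
  apply LipschitzWith.of_dist_le_mul
  intro x y
  rw [Real.coe_toNNReal _ (Real.sqrt_nonneg _)]
  apply le_of_sq_le_sq _ (by positivity)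
  rw [mul_pow, Real.sq_sqrt (by positivity), dist_sq_E2, dist_sq_E3]
  simp only [psi, PiLp.toLp_apply, Matrix.cons_val_zero, Matrix.cons_val_one, Matrix.cons_val]
  have : (t * (b * (1 - x.ofLp 1)) - t * (b * (1 - y.ofLp 1))) ^ 2 =
      t ^ 2 * (b ^ 2 * (x.ofLp 1 - y.ofLp 1) ^ 2) := by ring
  rw [this, ht]
  nlinarith [mul_nonneg (sq_nonneg b) (sq_nonneg (x.ofLp 0 - y.ofLp 0))]

theorem lipschitz_psiB : LipschitzWith 1 psiB := by
  apply LipschitzWith.of_dist_le_mul
  intro x y
  rw [NNReal.coe_one, one_mul]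
  apply le_of_sq_le_sq _ dist_nonneg
  rw [dist_sq_E2, dist_sq_E3]
  simp only [psiB, PiLp.toLp_apply, Matrix.cons_val_zero, Matrix.cons_val_one, Matrix.cons_val]
  nlinarith

theorem lipschitz_psiE (t : ℝ) (ht : t ^ 2 = 1) : LipschitzWith 101 (psiE t) := by
  apply LipschitzWith.of_dist_le_mul
  intro x y
  apply le_of_sq_le_sq _ (by positivity)
  rw [mul_pow, dist_sq_E2, dist_sq_E3]
  simp only [psiE, PiLp.toLp_apply, Matrix.cons_val_zero, Matrix.cons_val_one, Matrix.cons_val]
  have : (t * (500 - 100 * x.ofLp 0) - t * (500 - 100 * y.ofLp 0)) ^ 2 =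
      t ^ 2 * (10000 * (x.ofLp 0 - y.ofLp 0) ^ 2) := by ring
  rw [this, ht]
  push_cast
  nlinarith [sq_nonneg (x.ofLp 0 - y.ofLp 0), sq_nonneg (x.ofLp 1 - y.ofLp 1)]

theorem isOpen_Om (b : ℝ) : IsOpen (Om b) := by
  have : Om b = {x : E3 | 0 < x 1} ∩ ({x : E3 | |x 2| < b * (1 - x 1)} ∩
      {x : E3 | |x 0| < 500 - 100 * x 1}) := rfl
  rw [this]
  refine (isOpen_lt (by fun_prop) (by fun_prop)).inter
    ((isOpen_lt (by fun_prop) (by fun_prop)).inter (isOpen_lt (by fun_prop) (by fun_prop)))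

theorem psi_mem_frontier {b t : ℝ} (hb : 0 < b) (ht : t ^ 2 = 1) {q : E2} (hq : q ∈ R2) :
    psi b t q ∈ frontier (Om b) := by
  rw [(isOpen_Om b).frontier_eq]
  obtain ⟨h1, h2, h3⟩ := hq
  have ht' : |t| = 1 := by
    have : |t| ^ 2 = 1 := by rw [sq_abs]; exact ht
    nlinarith [abs_nonneg t]
  have hpos : 0 < b * (1 - q 1) := mul_pos hb (by linarith)
  constructor
  · set γ : ℝ → E3 := fun r => !₂[q 0, q 1, r * (t * (b * (1 - q 1)))] with hγ
    have hc : Continuous γ := by
      rw [hγ]; fun_prop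
    have h4 : psi b t q = γ 1 := by simp [psi, hγ]
    rw [h4]
    have h5 : (1 : ℝ) ∈ closure (Ico (0:ℝ) 1) := by
      rw [closure_Ico (by norm_num)]; exact ⟨by norm_num, le_rfl⟩
    apply map_mem_closure hc h5
    intro r hr
    refine ⟨?_, ?_, ?_⟩
    · simpa [hγ] using h1
    · simp only [hγ, PiLp.toLp_apply, Matrix.cons_val_zero, Matrix.cons_val_one, Matrix.cons_val]
      rw [abs_mul, abs_mul, ht', one_mul, abs_of_pos hpos, abs_of_nonneg hr.1]
      nlinarith [hr.2]
    · simpa [hγ] using h3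
  · rintro ⟨_, h5, _⟩
    simp only [psi, PiLp.toLp_apply, Matrix.cons_val_zero, Matrix.cons_val_one, Matrix.cons_val]
      at h5
    rw [abs_mul, ht', one_mul, abs_of_pos hpos] at h5
    exact lt_irrefl _ h5

theorem closure_Om_subset (b : ℝ) :
    closure (Om b) ⊆ {x : E3 | 0 ≤ x 1 ∧ |x 2| ≤ b * (1 - x 1) ∧ |x 0| ≤ 500 - 100 * x 1} := by
  apply closure_minimal
  · rintro x ⟨h1, h2, h3⟩
    exact ⟨h1.le, h2.le, h3.le⟩
  · have : {x : E3 | 0 ≤ x 1 ∧ |x 2| ≤ b * (1 - x 1) ∧ |x 0| ≤ 500 - 100 * x 1} =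
      {x : E3 | 0 ≤ x 1} ∩ ({x : E3 | |x 2| ≤ b * (1 - x 1)} ∩
      {x : E3 | |x 0| ≤ 500 - 100 * x 1}) := rfl
    rw [this]
    refine (isClosed_le (by fun_prop) (by fun_prop)).inter
      ((isClosed_le (by fun_prop) (by fun_prop)).inter (isClosed_le (by fun_prop) (by fun_prop)))

theorem frontier_subset {b : ℝ} (hb : 0 < b) :
    frontier (Om b) ⊆ psi b 1 '' R2c ∪ psi b (-1) '' R2c ∪ psiB '' Rect (-500) 500 (-b) b ∪
      psiE 1 '' Rect 0 1 (-b) b ∪ psiE (-1) '' Rect 0 1 (-b) b := by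
  intro x hx
  rw [(isOpen_Om b).frontier_eq] at hx
  obtain ⟨hx1, hx2⟩ := hx
  obtain ⟨h1, h2, h3⟩ := closure_Om_subset b hx1
  have h4 : 0 ≤ b * (1 - x 1) := (abs_nonneg _).trans h2
  have h5 : x 1 ≤ 1 := by
    by_contra h; push Not at h; nlinarith
  have h2' := abs_le.mp h2
  have h3' := abs_le.mp h3
  by_cases hA : x 1 = 0
  · left; left; right
    refine ⟨!₂[x 0, x 2], ⟨⟨?_, ?_⟩, ⟨?_, ?_⟩⟩, ?_⟩
    · simp; linarith
    · simp; linarith
    · simp; nlinarith
    · simp; nlinarith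
    · ext i; fin_cases i <;> simp [psiB, hA]
  · have hA' : 0 < x 1 := lt_of_le_of_ne h1 (Ne.symm hA)
    by_cases hB : |x 2| = b * (1 - x 1)
    · rcases abs_eq h4 |>.mp hB with hB' | hB'
      · left; left; left; left
        refine ⟨!₂[x 0, x 1], ⟨by simpa using h1, by simpa using h5, by simpa using h3⟩, ?_⟩
        ext i; fin_cases i <;> simp [psi, hB']
      · left; left; left; right
        refine ⟨!₂[x 0, x 1], ⟨by simpa using h1, by simpa using h5, by simpa using h3⟩, ?_⟩
        ext i; fin_cases i <;> simp [psi, hB']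
    · have hB2 : |x 2| < b * (1 - x 1) := lt_of_le_of_ne h2 hB
      by_cases hC : |x 0| = 500 - 100 * x 1
      · have h6 : (0:ℝ) ≤ 500 - 100 * x 1 := by linarith
        rcases abs_eq h6 |>.mp hC with hC' | hC'
        · left; right
          refine ⟨!₂[x 1, x 2], ⟨⟨by simpa using h1, by simpa using h5⟩, ⟨?_, ?_⟩⟩, ?_⟩
          · simp; nlinarith
          · simp; nlinarith
          · ext i; fin_cases i <;> simp [psiE, hC']
        · right
          refine ⟨!₂[x 1, x 2], ⟨⟨by simpa using h1, by simpa using h5⟩, ⟨?_, ?_⟩⟩, ?_⟩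
          · simp; nlinarith
          · simp; nlinarith
          · ext i; fin_cases i <;> simp [psiE, hC']
      · exact absurd ⟨hA', hB2, lt_of_le_of_ne h3 hC⟩ hx2

end Pool.Agent.Lib.MP_d01728_an
end

section

open MeasureTheory Set Measure
open scoped ENNReal NNReal

namespace Pool.Agent.Lib.MP_d01728_an

theorem R2_subset_R2c : R2 ⊆ R2c := fun _ h => ⟨h.1.le, h.2.1.le, h.2.2.le⟩

theorem measurableSet_R2 : MeasurableSet R2 := by
  have : R2 = {q : E2 | 0 < q 1} ∩ ({q : E2 | q 1 < 1} ∩ {q : E2 | |q 0| < 500 - 100 * q 1}) := rfl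
  rw [this]
  exact ((isOpen_lt (by fun_prop) (by fun_prop)).inter
    ((isOpen_lt (by fun_prop) (by fun_prop)).inter
      (isOpen_lt (by fun_prop) (by fun_prop)))).measurableSet

theorem measurableSet_R2c : MeasurableSet R2c := by
  have : R2c = {q : E2 | 0 ≤ q 1} ∩ ({q : E2 | q 1 ≤ 1} ∩ {q : E2 | |q 0| ≤ 500 - 100 * q 1}) := rfl
  rw [this]
  exact ((isClosed_le (by fun_prop) (by fun_prop)).inter
    ((isClosed_le (by fun_prop) (by fun_prop)).inter
      (isClosed_le (by fun_prop) (by fun_prop)))).measurableSet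

theorem R2c_subset : R2c ⊆ Rect (-500) 500 0 1 := by
  rintro q ⟨h1, h2, h3⟩
  rw [abs_le] at h3
  exact ⟨⟨by linarith, by linarith⟩, ⟨h1, h2⟩⟩

theorem setIntegral_R2 {G : E2 → ℝ} (hG : Continuous G) :
    ∫ q in R2, G q = ∫ z in (-500:ℝ)..500, ∫ s in (0:ℝ)..(sg z), G !₂[z, s] := by
  apply setIntegral_R measurableSet_R2 _ _ hG
  · intro z s hz hs
    have hs1 : s < 1 := lt_of_lt_of_le hs.2 (min_le_left _ _)
    have hs2 : s < (500 - |z|) / 100 := lt_of_lt_of_le hs.2 (min_le_right _ _)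
    rw [lt_div_iff₀ (by norm_num)] at hs2
    refine ⟨by simpa using hs.1, by simpa using hs1, ?_⟩
    simp
    linarith
  · rintro z s ⟨h1, h2, h3⟩
    simp at h1 h2 h3
    have h3' := abs_lt.mp h3
    refine ⟨⟨by linarith, by linarith⟩, ⟨h1.le, le_min h2.le ?_⟩⟩
    rw [le_div_iff₀ (by norm_num)]
    linarith

theorem setIntegral_R2c {G : E2 → ℝ} (hG : Continuous G) :
    ∫ q in R2c, G q = ∫ z in (-500:ℝ)..500, ∫ s in (0:ℝ)..(sg z), G !₂[z, s] := by
  apply setIntegral_R measurableSet_R2c _ _ hG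
  · intro z s hz hs
    have hs1 : s < 1 := lt_of_lt_of_le hs.2 (min_le_left _ _)
    have hs2 : s < (500 - |z|) / 100 := lt_of_lt_of_le hs.2 (min_le_right _ _)
    rw [lt_div_iff₀ (by norm_num)] at hs2
    refine ⟨by simpa using hs.1.le, by simpa using hs1.le, ?_⟩
    simp
    linarith
  · rintro z s ⟨h1, h2, h3⟩
    simp at h1 h2 h3
    have h3' := abs_le.mp h3
    refine ⟨⟨by linarith, by linarith⟩, ⟨h1, le_min h2 ?_⟩⟩
    rw [le_div_iff₀ (by norm_num)]
    linarith

section
variable {k : ℝ} (hk : 0 < k) (hkm : (μH[2] : Measure E2) = ENNReal.ofReal k • (volume : Measure E2))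

include hk hkm

theorem muH_Rect {a b c d : ℝ} (hab : a ≤ b) (hcd : c ≤ d) :
    (μH[2] : Measure E2) (Rect a b c d) = ENNReal.ofReal (k * ((b - a) * (d - c))) := by
  rw [hkm, Measure.smul_apply, Rect, volume_rect a b c d hab hcd, smul_eq_mul,
    ← ENNReal.ofReal_mul hk.le]

theorem muH_R2c_lt_top : (μH[2] : Measure E2) R2c < ⊤ := by
  refine (measure_mono R2c_subset).trans_lt ?_
  rw [muH_Rect hk hkm (by norm_num) (by norm_num)]
  exact ENNReal.ofReal_lt_top

theorem muH_frontier_lt_top {b : ℝ} (hb : 0 < b) : (μH[2] : Measure E3) (frontier (Om b)) < ⊤ := by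
  refine (measure_mono (frontier_subset hb)).trans_lt ?_
  have himg : ∀ {K : ℝ≥0} {ψ : E2 → E3} {S : Set E2}, LipschitzWith K ψ →
      (μH[2] : Measure E2) S < ⊤ → (μH[2] : Measure E3) (ψ '' S) < ⊤ := by
    intro K ψ S hψ hS
    refine (hψ.hausdorffMeasure_image_le (by norm_num) S).trans_lt ?_
    exact ENNReal.mul_lt_top (ENNReal.rpow_lt_top_of_nonneg (by norm_num) ENNReal.coe_ne_top) hS
  have hR : ∀ a b c d : ℝ, a ≤ b → c ≤ d → (μH[2] : Measure E2) (Rect a b c d) < ⊤ := by
    intro a b c d h1 h2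
    rw [muH_Rect hk hkm h1 h2]; exact ENNReal.ofReal_lt_top
  have hbb : -b ≤ b := by linarith
  refine measure_union_lt_top (measure_union_lt_top (measure_union_lt_top
    (measure_union_lt_top ?_ ?_) ?_) ?_) ?_
  · exact himg (lipschitz_psi b 1 (by norm_num)) (muH_R2c_lt_top hk hkm)
  · exact himg (lipschitz_psi b (-1) (by norm_num)) (muH_R2c_lt_top hk hkm)
  · exact himg lipschitz_psiB (hR _ _ _ _ (by norm_num) hbb)
  · exact himg (lipschitz_psiE 1 (by norm_num)) (hR _ _ _ _ (by norm_num) hbb)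
  · exact himg (lipschitz_psiE (-1) (by norm_num)) (hR _ _ _ _ (by norm_num) hbb)

omit hk hkm in
theorem isCompact_closure_Om {b : ℝ} (hb : 0 < b) : IsCompact (closure (Om b)) := by
  apply Metric.isCompact_of_isClosed_isBounded isClosed_closure
  rw [Metric.isBounded_iff_subset_closedBall (0 : E3)]
  refine ⟨500 + 1 + b, ?_⟩
  intro x hx
  obtain ⟨h1, h2, h3⟩ := closure_Om_subset b hx
  have h4 : 0 ≤ b * (1 - x 1) := (abs_nonneg _).trans h2
  have h5 : x 1 ≤ 1 := by
    by_contra h; push Not at h; nlinarith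
  rw [mem_closedBall_zero_iff]
  apply le_of_sq_le_sq _ (by positivity)
  rw [EuclideanSpace.norm_eq, Real.sq_sqrt (Finset.sum_nonneg fun i _ => sq_nonneg _),
    Fin.sum_univ_three]
  simp only [Real.norm_eq_abs]
  have h6 : |x 1| ≤ 1 := abs_le.mpr ⟨by linarith, h5⟩
  have h7 : |x 0| ≤ 500 := by linarith
  have h8 : |x 2| ≤ b := by nlinarith
  have := abs_nonneg (x 0)
  have := abs_nonneg (x 1)
  have := abs_nonneg (x 2)
  nlinarith [mul_nonneg (abs_nonneg (x 0)) (abs_nonneg (x 1))]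

theorem integrableOn_frontier {b : ℝ} (hb : 0 < b) {g : E3 → ℝ} (hg : Continuous g) :
    IntegrableOn g (frontier (Om b)) (μH[2] : Measure E3) := by
  have hfin := muH_frontier_lt_top hk hkm hb
  have hc : IsCompact (frontier (Om b)) :=
    (isCompact_closure_Om hb).of_isClosed_subset isClosed_frontier frontier_subset_closure
  obtain ⟨M, hM⟩ := hc.exists_bound_of_continuousOn hg.continuousOn
  refine Measure.integrableOn_of_bounded hfin.ne hg.aestronglyMeasurable (M := M) ?_
  filter_upwards [ae_restrict_mem isClosed_frontier.measurableSet] with x hx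
  exact hM x hx

theorem surface_lower {b : ℝ} (hb : 0 < b) {g : E3 → ℝ} (hg : Continuous g)
    (hg0 : ∀ x, 0 ≤ g x) :
    k * ∫ z in (-500:ℝ)..500, ∫ s in (0:ℝ)..(sg z),
      (g !₂[z, s, b * (1 - s)] + g !₂[z, s, -(b * (1 - s))]) ≤
    ∫ x in frontier (Om b), g x ∂(μH[2] : Measure E3) := by
  have hgm : Measurable fun x => ENNReal.ofReal (g x) := hg.measurable.ennreal_ofReal
  have hface : ∀ t : ℝ, t ^ 2 = 1 → psi b t '' R2 =
      {x : E3 | 0 < x 1 ∧ x 1 < 1 ∧ |x 0| < 500 - 100 * x 1 ∧ x 2 = t * (b * (1 - x 1))} := by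
    intro t ht
    ext x
    constructor
    · rintro ⟨q, ⟨h1, h2, h3⟩, rfl⟩
      refine ⟨by simpa [psi] using h1, by simpa [psi] using h2, by simpa [psi] using h3,
        by simp [psi]⟩
    · rintro ⟨h1, h2, h3, h4⟩
      refine ⟨!₂[x 0, x 1], ⟨by simpa using h1, by simpa using h2, by simpa using h3⟩, ?_⟩
      ext i; fin_cases i <;> simp [psi, h4]
  have hfacem : ∀ t : ℝ, t ^ 2 = 1 → MeasurableSet (psi b t '' R2) := by
    intro t ht
    rw [hface t ht]
    have : {x : E3 | 0 < x 1 ∧ x 1 < 1 ∧ |x 0| < 500 - 100 * x 1 ∧ x 2 = t * (b * (1 - x 1))} =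
      {x : E3 | 0 < x 1} ∩ ({x : E3 | x 1 < 1} ∩ ({x : E3 | |x 0| < 500 - 100 * x 1} ∩
        {x : E3 | x 2 = t * (b * (1 - x 1))})) := rfl
    rw [this]
    exact (isOpen_lt (by fun_prop) (by fun_prop)).measurableSet.inter
      ((isOpen_lt (by fun_prop) (by fun_prop)).measurableSet.inter
        ((isOpen_lt (by fun_prop) (by fun_prop)).measurableSet.inter
          (isClosed_eq (by fun_prop) (by fun_prop)).measurableSet))
  have hlow : ∀ t : ℝ, t ^ 2 = 1 →
      ∫⁻ q in R2, ENNReal.ofReal (g (psi b t q)) ∂μH[2] ≤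
      ∫⁻ x in psi b t '' R2, ENNReal.ofReal (g x) ∂μH[2] := by
    intro t ht
    refine le_lintegral_image (lipschitz_psi b t ht).continuous.measurable lipschitz_pr ?_
      (hfacem t ht) hgm (by norm_num)
    intro q _
    ext i; fin_cases i <;> simp [pr, psi]
  have hdisj : Disjoint (psi b 1 '' R2) (psi b (-1) '' R2) := by
    rw [Set.disjoint_left]
    intro x h1 h2
    rw [hface 1 (by norm_num)] at h1
    rw [hface (-1) (by norm_num)] at h2
    obtain ⟨_, a2, _, a4⟩ := h1
    obtain ⟨_, _, _, a5⟩ := h2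
    have : 0 < b * (1 - x 1) := mul_pos hb (by linarith)
    linarith
  have hsub : psi b 1 '' R2 ∪ psi b (-1) '' R2 ⊆ frontier (Om b) := by
    apply union_subset
    · rintro x ⟨q, hq, rfl⟩
      exact psi_mem_frontier hb (by norm_num) hq
    · rintro x ⟨q, hq, rfl⟩
      exact psi_mem_frontier hb (by norm_num) hq
  have hlint : ENNReal.ofReal (k * ∫ z in (-500:ℝ)..500, ∫ s in (0:ℝ)..(sg z),
      (g !₂[z, s, b * (1 - s)] + g !₂[z, s, -(b * (1 - s))])) ≤
      ∫⁻ x in frontier (Om b), ENNReal.ofReal (g x) ∂(μH[2] : Measure E3) := by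
    have hc : ∀ t : ℝ, Continuous fun q => g (psi b t q) := by
      intro t
      apply hg.comp
      unfold psi
      fun_prop
    have hci : ∀ t : ℝ, t ^ 2 = 1 → IntegrableOn (fun q => g (psi b t q)) R2 volume := by
      intro t ht
      have hcomp : IsCompact (Rect (-500) 500 0 1) := by
        apply Metric.isCompact_of_isClosed_isBounded
        · have : Rect (-500) 500 0 1 = {q : E2 | (-500:ℝ) ≤ q 0} ∩ {q : E2 | q 0 ≤ 500} ∩
            ({q : E2 | 0 ≤ q 1} ∩ {q : E2 | q 1 ≤ 1}) := rfl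
          rw [this]
          exact ((isClosed_le (by fun_prop) (by fun_prop)).inter
            (isClosed_le (by fun_prop) (by fun_prop))).inter
            ((isClosed_le (by fun_prop) (by fun_prop)).inter
            (isClosed_le (by fun_prop) (by fun_prop)))
        · rw [Metric.isBounded_iff_subset_closedBall (0 : E2)]
          refine ⟨501, ?_⟩
          intro x hx
          obtain ⟨⟨h1, h2⟩, ⟨h3, h4⟩⟩ := hx
          rw [mem_closedBall_zero_iff]
          apply le_of_sq_le_sq _ (by positivity)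
          rw [EuclideanSpace.norm_eq, Real.sq_sqrt (Finset.sum_nonneg fun i _ => sq_nonneg _),
            Fin.sum_univ_two]
          simp only [Real.norm_eq_abs, sq_abs]
          nlinarith
      exact ((hc t).continuousOn.integrableOn_compact hcomp).mono_set
        (R2_subset_R2c.trans R2c_subset)
    have e1 : ∫ z in (-500:ℝ)..500, ∫ s in (0:ℝ)..(sg z),
      (g !₂[z, s, b * (1 - s)] + g !₂[z, s, -(b * (1 - s))]) =
      ∫ q in R2, (g (psi b 1 q) + g (psi b (-1) q)) := by
      have hcs : Continuous (fun q => g (psi b 1 q) + g (psi b (-1) q)) := (hc 1).add (hc (-1))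
      rw [setIntegral_R2 hcs]
      simp [psi]
    have hcis : Integrable (fun q => g (psi b 1 q) + g (psi b (-1) q))
        (volume.restrict R2) := (hci 1 (by norm_num)).add (hci (-1) (by norm_num))
    rw [e1, ENNReal.ofReal_mul hk.le, ofReal_integral_eq_lintegral_ofReal hcis
      (Filter.Eventually.of_forall fun q => add_nonneg (hg0 _) (hg0 _))]
    calc ENNReal.ofReal k * ∫⁻ q in R2, ENNReal.ofReal (g (psi b 1 q) + g (psi b (-1) q))
        = ∫⁻ q in R2, ENNReal.ofReal (g (psi b 1 q) + g (psi b (-1) q)) ∂μH[2] := by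
          rw [hkm, Measure.restrict_smul, lintegral_smul_measure, smul_eq_mul]
      _ = ∫⁻ q in R2, (ENNReal.ofReal (g (psi b 1 q)) + ENNReal.ofReal (g (psi b (-1) q)))
            ∂μH[2] := by
          congr 1; ext q; rw [ENNReal.ofReal_add (hg0 _) (hg0 _)]
      _ = ∫⁻ q in R2, ENNReal.ofReal (g (psi b 1 q)) ∂μH[2] +
            ∫⁻ q in R2, ENNReal.ofReal (g (psi b (-1) q)) ∂μH[2] := by
          rw [lintegral_add_left]
          exact (hc 1).measurable.ennreal_ofReal
      _ ≤ ∫⁻ x in psi b 1 '' R2, ENNReal.ofReal (g x) ∂μH[2] +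
            ∫⁻ x in psi b (-1) '' R2, ENNReal.ofReal (g x) ∂μH[2] :=
          add_le_add (hlow 1 (by norm_num)) (hlow (-1) (by norm_num))
      _ = ∫⁻ x in psi b 1 '' R2 ∪ psi b (-1) '' R2, ENNReal.ofReal (g x) ∂μH[2] := by
          rw [lintegral_union (hfacem (-1) (by norm_num)) hdisj]
      _ ≤ ∫⁻ x in frontier (Om b), ENNReal.ofReal (g x) ∂(μH[2] : Measure E3) :=
          lintegral_mono_set hsub
  rw [integral_eq_lintegral_of_nonneg_ae (Filter.Eventually.of_forall hg0)
    hg.aestronglyMeasurable]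
  have hfin : ∫⁻ x in frontier (Om b), ENNReal.ofReal (g x) ∂(μH[2] : Measure E3) ≠ ⊤ := by
    have := (integrableOn_frontier hk hkm hb hg).lintegral_lt_top
    exact this.ne
  rw [ENNReal.ofReal_le_iff_le_toReal hfin] at hlint
  exact hlint

theorem surface_upper {b : ℝ} (hb : 0 < b) {h : ℝ → ℝ} (hh : Continuous h)
    (hh0 : ∀ z, 0 ≤ h z) {M : ℝ} (hM : ∀ z ∈ Icc (-500:ℝ) 500, h z ≤ M) :
    ∫ x in frontier (Om b), h (x 0) ∂(μH[2] : Measure E3) ≤
      k * (2 * (1 + b ^ 2) * (∫ z in (-500:ℝ)..500, ∫ _s in (0:ℝ)..(sg z), h z) +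
        M * (42804 * b)) := by
  have hg : Continuous fun x : E3 => h (x 0) := by fun_prop
  have hgm : Measurable fun x : E3 => ENNReal.ofReal (h (x 0)) := hg.measurable.ennreal_ofReal
  have hM0 : 0 ≤ M := (hh0 0).trans (hM 0 ⟨by norm_num, by norm_num⟩)
  have hbb : -b ≤ b := by linarith
  set I := ∫ z in (-500:ℝ)..500, ∫ _s in (0:ℝ)..(sg z), h z with hI
  have hqc : Continuous fun q : E2 => h (q 0) := by fun_prop
  have hIeq : ∫ q in R2c, h (q 0) = I := by
    rw [setIntegral_R2c hqc]; simp [hI]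
  have hI0 : 0 ≤ I := by
    rw [← hIeq]; exact integral_nonneg fun q => hh0 _
  have hqi : IntegrableOn (fun q : E2 => h (q 0)) R2c volume := by
    have hcomp : IsCompact (Rect (-500) 500 0 1) := by
      apply Metric.isCompact_of_isClosed_isBounded
      · have : Rect (-500) 500 0 1 = {q : E2 | (-500:ℝ) ≤ q 0} ∩ {q : E2 | q 0 ≤ 500} ∩
            ({q : E2 | 0 ≤ q 1} ∩ {q : E2 | q 1 ≤ 1}) := rfl
        rw [this]
        exact ((isClosed_le (by fun_prop) (by fun_prop)).inter
            (isClosed_le (by fun_prop) (by fun_prop))).inter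
            ((isClosed_le (by fun_prop) (by fun_prop)).inter
            (isClosed_le (by fun_prop) (by fun_prop)))
      · rw [Metric.isBounded_iff_subset_closedBall (0 : E2)]
        refine ⟨501, ?_⟩
        intro x hx
        obtain ⟨⟨h1, h2⟩, ⟨h3, h4⟩⟩ := hx
        rw [mem_closedBall_zero_iff]
        apply le_of_sq_le_sq _ (by positivity)
        rw [EuclideanSpace.norm_eq, Real.sq_sqrt (Finset.sum_nonneg fun i _ => sq_nonneg _),
            Fin.sum_univ_two]
        simp only [Real.norm_eq_abs, sq_abs]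
        nlinarith
    exact (hqc.continuousOn.integrableOn_compact hcomp).mono_set R2c_subset
  -- slanted faces
  have hsl : ∀ t : ℝ, t ^ 2 = 1 → ∫⁻ x in psi b t '' R2c, ENNReal.ofReal (h (x 0)) ∂μH[2] ≤
      ENNReal.ofReal (k * ((1 + b ^ 2) * I)) := by
    intro t ht
    refine (lintegral_image_le (lipschitz_psi b t ht) R2c hgm (by norm_num)).trans ?_
    have e1 : ((Real.toNNReal (Real.sqrt (1 + b ^ 2)) : ℝ≥0∞)) ^ (2:ℝ) =
        ENNReal.ofReal (1 + b ^ 2) := by
      rw [← ENNReal.ofReal, ENNReal.rpow_two, ← ENNReal.ofReal_pow (Real.sqrt_nonneg _),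
        Real.sq_sqrt (by positivity)]
    have e2 : ∫⁻ q in R2c, ENNReal.ofReal (h ((psi b t q) 0)) ∂(μH[2] : Measure E2) =
        ENNReal.ofReal (k * I) := by
      have : (fun q : E2 => ENNReal.ofReal (h ((psi b t q) 0))) =
          fun q => ENNReal.ofReal (h (q 0)) := by
        ext q; simp [psi]
      rw [this, hkm, Measure.restrict_smul, lintegral_smul_measure, smul_eq_mul,
        ← ofReal_integral_eq_lintegral_ofReal hqi (Filter.Eventually.of_forall fun q => hh0 _),
        hIeq, ENNReal.ofReal_mul hk.le]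
    rw [e1, e2, ← ENNReal.ofReal_mul (by positivity)]
    apply le_of_eq
    congr 1
    ring
  -- crude faces
  have hcr : ∀ {K : ℝ≥0} {ψ : E2 → E3} {a c : ℝ}, LipschitzWith K ψ → a ≤ c →
      (∀ q ∈ Rect a c (-b) b, (ψ q) 0 ∈ Icc (-500:ℝ) 500) →
      ∫⁻ x in ψ '' Rect a c (-b) b, ENNReal.ofReal (h (x 0)) ∂μH[2] ≤
      ENNReal.ofReal (k * (M * ((K:ℝ) ^ 2 * ((c - a) * (2 * b))))) := by
    intro K ψ a c hψ hac hmem
    refine (lintegral_image_le hψ _ hgm (by norm_num)).trans ?_
    have e1 : (K : ℝ≥0∞) ^ (2:ℝ) = ENNReal.ofReal ((K:ℝ) ^ 2) := by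
      rw [ENNReal.rpow_two, ENNReal.ofReal_pow K.coe_nonneg, ENNReal.ofReal_coe_nnreal]
    have hRm : MeasurableSet (Rect a c (-b) b) := by
      have : Rect a c (-b) b = {q : E2 | a ≤ q 0} ∩ {q : E2 | q 0 ≤ c} ∩
            ({q : E2 | -b ≤ q 1} ∩ {q : E2 | q 1 ≤ b}) := rfl
      rw [this]
      exact (((isClosed_le (by fun_prop) (by fun_prop)).inter
            (isClosed_le (by fun_prop) (by fun_prop))).inter
            ((isClosed_le (by fun_prop) (by fun_prop)).inter
            (isClosed_le (by fun_prop) (by fun_prop)))).measurableSet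
    have e2 : ∫⁻ q in Rect a c (-b) b, ENNReal.ofReal (h ((ψ q) 0)) ∂(μH[2] : Measure E2) ≤
        ENNReal.ofReal (M * (k * ((c - a) * (2 * b)))) := by
      calc ∫⁻ q in Rect a c (-b) b, ENNReal.ofReal (h ((ψ q) 0)) ∂(μH[2] : Measure E2)
          ≤ ∫⁻ q in Rect a c (-b) b, ENNReal.ofReal M ∂(μH[2] : Measure E2) := by
            apply setLIntegral_mono' hRm
            intro q hq
            exact ENNReal.ofReal_le_ofReal (hM _ (hmem q hq))
        _ = ENNReal.ofReal (M * (k * ((c - a) * (2 * b)))) := by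
            rw [setLIntegral_const, muH_Rect hk hkm hac hbb, ← ENNReal.ofReal_mul hM0]
            congr 1
            ring
    calc (K : ℝ≥0∞) ^ (2:ℝ) * ∫⁻ q in Rect a c (-b) b, ENNReal.ofReal (h ((ψ q) 0))
          ∂(μH[2] : Measure E2)
        ≤ ENNReal.ofReal ((K:ℝ) ^ 2) * ENNReal.ofReal (M * (k * ((c - a) * (2 * b)))) := by
          rw [e1]; gcongr
      _ = ENNReal.ofReal (k * (M * ((K:ℝ) ^ 2 * ((c - a) * (2 * b))))) := by
          rw [← ENNReal.ofReal_mul (by positivity)]
          congr 1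
          ring
  have hB := hcr (a := -500) (c := 500) lipschitz_psiB (by norm_num) (by
    intro q hq; simpa [psiB] using hq.1)
  have hE : ∀ t : ℝ, t ^ 2 = 1 → ∀ q ∈ Rect 0 1 (-b) b, (psiE t q) 0 ∈ Icc (-500:ℝ) 500 := by
    intro t ht q hq
    obtain ⟨⟨h1, h2⟩, _⟩ := hq
    have ht' : t = 1 ∨ t = -1 := by
      have : (t - 1) * (t + 1) = 0 := by linarith [ht, (by ring : (t - 1) * (t + 1) = t ^ 2 - 1)]
      rcases mul_eq_zero.mp this with h1 | h1
      · left; linarith
      · right; linarith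
    simp only [psiE, PiLp.toLp_apply, Matrix.cons_val_zero, mem_Icc]
    rcases ht' with rfl | rfl
    · constructor <;> linarith
    · constructor <;> linarith
  have hE1 := hcr (a := 0) (c := 1) (lipschitz_psiE 1 (by norm_num)) (by norm_num)
    (hE 1 (by norm_num))
  have hE2 := hcr (a := 0) (c := 1) (lipschitz_psiE (-1) (by norm_num)) (by norm_num)
    (hE (-1) (by norm_num))
  have htot : ∫⁻ x in frontier (Om b), ENNReal.ofReal (h (x 0)) ∂(μH[2] : Measure E3) ≤
      ENNReal.ofReal (k * (2 * (1 + b ^ 2) * I + M * (42804 * b))) := by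
    calc ∫⁻ x in frontier (Om b), ENNReal.ofReal (h (x 0)) ∂(μH[2] : Measure E3)
        ≤ ∫⁻ x in psi b 1 '' R2c ∪ psi b (-1) '' R2c ∪ psiB '' Rect (-500) 500 (-b) b ∪
      psiE 1 '' Rect 0 1 (-b) b ∪ psiE (-1) '' Rect 0 1 (-b) b,
          ENNReal.ofReal (h (x 0)) ∂(μH[2] : Measure E3) := lintegral_mono_set (frontier_subset hb)
      _ ≤ ENNReal.ofReal (k * ((1 + b ^ 2) * I)) + ENNReal.ofReal (k * ((1 + b ^ 2) * I)) +
          ENNReal.ofReal (k * (M * (((1:ℝ≥0):ℝ) ^ 2 * ((500 - (-500)) * (2 * b))))) +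
          ENNReal.ofReal (k * (M * (((101:ℝ≥0):ℝ) ^ 2 * ((1 - 0) * (2 * b))))) +
          ENNReal.ofReal (k * (M * (((101:ℝ≥0):ℝ) ^ 2 * ((1 - 0) * (2 * b))))) := by
          refine (lintegral_union_le _ _ _).trans (add_le_add ?_ hE2)
          refine (lintegral_union_le _ _ _).trans (add_le_add ?_ hE1)
          refine (lintegral_union_le _ _ _).trans (add_le_add ?_ hB)
          refine (lintegral_union_le _ _ _).trans (add_le_add ?_ ?_)
          · exact hsl 1 (by norm_num)
          · exact hsl (-1) (by norm_num)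
      _ = ENNReal.ofReal (k * (2 * (1 + b ^ 2) * I + M * (42804 * b))) := by
          rw [← ENNReal.ofReal_add (by positivity) (by positivity),
            ← ENNReal.ofReal_add (by positivity) (by positivity),
            ← ENNReal.ofReal_add (by positivity) (by positivity),
            ← ENNReal.ofReal_add (by positivity) (by positivity)]
          congr 1
          push_cast
          ring
  rw [integral_eq_lintegral_of_nonneg_ae (Filter.Eventually.of_forall fun x => hh0 _)
    hg.aestronglyMeasurable]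
  apply ENNReal.toReal_le_of_le_ofReal _ htot
  positivity

end

end Pool.Agent.Lib.MP_d01728_an
end
end
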