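import Mathlib
import Pool.Agent.Lib.MP_d01728_an.Slices
import Pool.Agent.Lib.MP_d01728_an.Surface2

section

open MeasureTheory Set Measure
open scoped ENNReal NNReal

namespace Pool.Agent.Lib.MP_d01728_an

/-- partial derivatives -/
noncomputable def D (u : E3 → ℝ) (i : Fin 3) (x : E3) : ℝ :=
  fderiv ℝ u x (EuclideanSpace.single i 1)

theorem vec_eq (z s y : ℝ) : (!₂[z, s, y] : E3) =
    z • EuclideanSpace.single 0 1 + s • EuclideanSpace.single 1 1 +
      y • EuclideanSpace.single 2 1 := by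
  ext i; fin_cases i <;> simp

theorem norm_fderiv_sq (L : E3 →L[ℝ] ℝ) : ‖L‖ ^ 2 =
    L (EuclideanSpace.single 0 1) ^ 2 + L (EuclideanSpace.single 1 1) ^ 2 +
      L (EuclideanSpace.single 2 1) ^ 2 := by
  set v : E3 := (InnerProductSpace.toDual ℝ E3).symm L with hv
  have hn : ‖v‖ = ‖L‖ := by rw [hv, LinearIsometryEquiv.norm_map]
  have hL : ∀ w, L w = inner ℝ v w := by
    intro w; rw [hv, InnerProductSpace.toDual_symm_apply]
  rw [← hn, EuclideanSpace.norm_eq, Real.sq_sqrt (Finset.sum_nonneg fun i _ => sq_nonneg _),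
    Fin.sum_univ_three, hL, hL, hL]
  simp [EuclideanSpace.inner_single_right]

theorem continuous_D {u : E3 → ℝ} (hu : ContDiff ℝ 1 u) (i : Fin 3) : Continuous (D u i) :=
  (hu.continuous_fderiv (by norm_num)).clm_apply continuous_const

theorem norm_fderiv_sq' (u : E3 → ℝ) (x : E3) : ‖fderiv ℝ u x‖ ^ 2 =
    D u 0 x ^ 2 + D u 1 x ^ 2 + D u 2 x ^ 2 := norm_fderiv_sq _

theorem hasDerivAt_y {u : E3 → ℝ} (hu : ContDiff ℝ 1 u) (z s y : ℝ) :
    HasDerivAt (fun y => u !₂[z, s, y]) (D u 2 !₂[z, s, y]) y := by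
  have h1 : HasDerivAt (fun y : ℝ => (!₂[z, s, y] : E3)) (EuclideanSpace.single 2 1) y := by
    have h2 : (fun y : ℝ => (!₂[z, s, y] : E3)) = fun y : ℝ =>
      (z • EuclideanSpace.single 0 1 + s • EuclideanSpace.single 1 1) +
      y • (EuclideanSpace.single 2 1 : E3) := by
      funext y; exact vec_eq z s y
    rw [h2]
    have h3 := (hasDerivAt_id' y).smul_const (EuclideanSpace.single 2 1 : E3)
    rw [one_smul] at h3
    exact h3.const_add _
  exact ((hu.differentiable (by norm_num) _).hasFDerivAt.comp_hasDerivAt y h1)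

/-- the section embedding -/
theorem hasFDerivAt_sec (z : ℝ) (p : ℝ × ℝ) :
    HasFDerivAt (fun p : ℝ × ℝ => (!₂[z, p.1, p.2] : E3))
      ((ContinuousLinearMap.fst ℝ ℝ ℝ).smulRight (EuclideanSpace.single 1 1 : E3) +
       (ContinuousLinearMap.snd ℝ ℝ ℝ).smulRight (EuclideanSpace.single 2 1 : E3)) p := by
  have h2 : (fun p : ℝ × ℝ => (!₂[z, p.1, p.2] : E3)) = fun p : ℝ × ℝ =>
      z • (EuclideanSpace.single 0 1 : E3) + (p.1 • (EuclideanSpace.single 1 1 : E3) +
      p.2 • (EuclideanSpace.single 2 1 : E3)) := by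
    funext p; rw [vec_eq, add_assoc]
  rw [h2]
  apply HasFDerivAt.const_add
  exact (hasFDerivAt_fst.smul_const _).add (hasFDerivAt_snd.smul_const _)

theorem contDiff_sec {u : E3 → ℝ} (hu : ContDiff ℝ 1 u) (z : ℝ) :
    ContDiff ℝ 1 (fun p : ℝ × ℝ => u !₂[z, p.1, p.2]) := by
  apply hu.comp
  have h2 : (fun p : ℝ × ℝ => (!₂[z, p.1, p.2] : E3)) = fun p : ℝ × ℝ =>
      z • (EuclideanSpace.single 0 1 : E3) + (p.1 • (EuclideanSpace.single 1 1 : E3) +
      p.2 • (EuclideanSpace.single 2 1 : E3)) := by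
    funext p; rw [vec_eq, add_assoc]
  rw [h2]
  fun_prop

theorem fderiv_sec {u : E3 → ℝ} (hu : ContDiff ℝ 1 u) (z : ℝ) (p : ℝ × ℝ) :
    fderiv ℝ (fun p : ℝ × ℝ => u !₂[z, p.1, p.2]) p (1, 0) = D u 1 !₂[z, p.1, p.2] ∧
    fderiv ℝ (fun p : ℝ × ℝ => u !₂[z, p.1, p.2]) p (0, 1) = D u 2 !₂[z, p.1, p.2] := by
  have h := (hu.differentiable (by norm_num) !₂[z, p.1, p.2]).hasFDerivAt.comp p
    (hasFDerivAt_sec z p)
  have h' : fderiv ℝ (fun p : ℝ × ℝ => u !₂[z, p.1, p.2]) p = _ := h.fderiv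
  rw [h']
  constructor <;> simp [D]

/-- mass of the section at height `z` -/
noncomputable def mz (b : ℝ) (u : E3 → ℝ) (z : ℝ) : ℝ :=
  ∫ s in (0:ℝ)..(sg z), ∫ y in (-(b*(1-s)))..(b*(1-s)), u !₂[z, s, y] ^ 2

/-- gradient part of the transversal energy of the section at height `z` -/
noncomputable def gz (b : ℝ) (u : E3 → ℝ) (z : ℝ) : ℝ :=
  ∫ s in (0:ℝ)..(sg z), ∫ y in (-(b*(1-s)))..(b*(1-s)),
    (D u 1 !₂[z, s, y] ^ 2 + D u 2 !₂[z, s, y] ^ 2)

/-- boundary part of the transversal energy of the section at height `z` -/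
noncomputable def bz (b : ℝ) (u : E3 → ℝ) (z : ℝ) : ℝ :=
  ∫ s in (0:ℝ)..(sg z), (u !₂[z, s, b*(1-s)] ^ 2 + u !₂[z, s, -(b*(1-s))] ^ 2)

theorem continuous_vec3 {X : Type*} [TopologicalSpace X] {f g h : X → ℝ} (hf : Continuous f)
    (hg : Continuous g) (hh : Continuous h) : Continuous fun x => (!₂[f x, g x, h x] : E3) := by
  fun_prop

theorem continuous_sg : Continuous sg := by
  unfold sg; fun_prop

theorem section_out {u : E3 → ℝ} (hu : ContDiff ℝ 1 u) {b β z : ℝ} (hb : 0 < b) (hβ : 0 ≤ β)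
    (hz : z ∈ Icc (-500:ℝ) 500) :
    (β - β ^ 2 * b ^ 2) * mz b u z ≤ gz b u z + β * b * bz b u z := by
  have huc : Continuous u := hu.continuous
  have hD1 := continuous_D hu 1
  have hD2 := continuous_D hu 2
  have hv : ∀ z : ℝ, Continuous fun p : ℝ × ℝ => (!₂[z, p.1, p.2] : E3) := fun z =>
    continuous_vec3 (by fun_prop) (by fun_prop) (by fun_prop)
  have c1 : Continuous (Function.uncurry fun s y : ℝ => u !₂[z, s, y] ^ 2) :=
    (huc.comp (hv z)).pow 2
  have c2 : Continuous (Function.uncurry fun s y : ℝ =>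
      D u 1 !₂[z, s, y] ^ 2 + D u 2 !₂[z, s, y] ^ 2) :=
    ((hD1.comp (hv z)).pow 2).add ((hD2.comp (hv z)).pow 2)
  have c3 : Continuous fun s : ℝ => u !₂[z, s, b*(1-s)] ^ 2 + u !₂[z, s, -(b*(1-s))] ^ 2 :=
    ((huc.comp (continuous_vec3 (by fun_prop) (by fun_prop) (by fun_prop))).pow 2).add
      ((huc.comp (continuous_vec3 (by fun_prop) (by fun_prop) (by fun_prop))).pow 2)
  have d1 := continuous_iter c1 (by fun_prop : Continuous fun s : ℝ => -(b*(1-s)))
    (by fun_prop : Continuous fun s : ℝ => b*(1-s))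
  have d2 := continuous_iter c2 (by fun_prop : Continuous fun s : ℝ => -(b*(1-s)))
    (by fun_prop : Continuous fun s : ℝ => b*(1-s))
  have c3' : Continuous fun s : ℝ => β * b *
      (u !₂[z, s, b*(1-s)] ^ 2 + u !₂[z, s, -(b*(1-s))] ^ 2) := continuous_const.mul c3
  unfold mz gz bz
  rw [← intervalIntegral.integral_const_mul, ← intervalIntegral.integral_const_mul,
    ← intervalIntegral.integral_add (d2.intervalIntegrable _ _) (c3'.intervalIntegrable _ _)]
  apply intervalIntegral.integral_mono_on_of_le_Ioo (sg_nonneg hz)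
  · exact (continuous_const.mul d1).intervalIntegrable _ _
  · exact (d2.add c3').intervalIntegrable _ _
  intro s hs
  have hs1 : s < 1 := lt_of_lt_of_le hs.2 (min_le_left _ _)
  have ha : 0 < b * (1 - s) := mul_pos hb (by linarith)
  set f : ℝ → ℝ := fun y => u !₂[z, s, y] with hf
  have hfd : ∀ y, HasDerivAt f (D u 2 !₂[z, s, y]) y := fun y => hasDerivAt_y hu z s y
  have hfd' : deriv f = fun y => D u 2 !₂[z, s, y] := by
    funext y; exact (hfd y).deriv
  have hfc : ContDiff ℝ 1 f := by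
    rw [contDiff_one_iff_deriv]
    refine ⟨fun y => (hfd y).differentiableAt, ?_⟩
    rw [hfd']
    exact hD2.comp (continuous_vec3 (by fun_prop) (by fun_prop) (by fun_prop))
  have key := slice_one hfc ha (mul_nonneg hβ hb.le)
  rw [hfd'] at key
  have hI0 : 0 ≤ ∫ y in (-(b*(1-s)))..(b*(1-s)), f y ^ 2 :=
    intervalIntegral.integral_nonneg (by linarith) fun y _ => sq_nonneg _
  have hcoef : β - β ^ 2 * b ^ 2 ≤ β * b / (b * (1 - s)) - (β * b) ^ 2 := by
    have : β ≤ β * b / (b * (1 - s)) := by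
      rw [le_div_iff₀ ha]
      have : 0 ≤ β * b * s := by positivity [hs.1]
      nlinarith
    nlinarith
  have hgrad : ∫ y in (-(b*(1-s)))..(b*(1-s)), D u 2 !₂[z, s, y] ^ 2 ≤
      ∫ y in (-(b*(1-s)))..(b*(1-s)), (D u 1 !₂[z, s, y] ^ 2 + D u 2 !₂[z, s, y] ^ 2) := by
    apply intervalIntegral.integral_mono_on (by linarith)
    · exact ((hD2.comp (continuous_vec3 (by fun_prop) (by fun_prop) (by fun_prop))).pow
        2).intervalIntegrable _ _
    · exact (((hD1.comp (continuous_vec3 (by fun_prop) (by fun_prop) (by fun_prop))).pow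
        2).add ((hD2.comp (continuous_vec3 (by fun_prop) (by fun_prop) (by fun_prop))).pow
        2)).intervalIntegrable _ _
    · intro y _
      nlinarith [sq_nonneg (D u 1 !₂[z, s, y])]
  calc (β - β ^ 2 * b ^ 2) * ∫ y in (-(b*(1-s)))..(b*(1-s)), u !₂[z, s, y] ^ 2
      ≤ (β * b / (b * (1 - s)) - (β * b) ^ 2) * ∫ y in (-(b*(1-s)))..(b*(1-s)), f y ^ 2 :=
        mul_le_mul_of_nonneg_right hcoef hI0
    _ ≤ _ := key
    _ ≤ _ := by simp only [hf]; linarith

theorem section_mid {u : E3 → ℝ} (hu : ContDiff ℝ 1 u) {b β z : ℝ} (hb : 0 < b)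
    (hz : z ∈ Icc (-400:ℝ) 400) :
    (2 * β - β ^ 2 * (1 + b ^ 2)) * mz b u z ≤ gz b u z + β * b * bz b u z := by
  have hsg : sg z = 1 := by
    have : |z| ≤ 400 := abs_le.mpr hz
    unfold sg
    apply min_eq_left
    rw [le_div_iff₀ (by norm_num)]
    linarith
  have key := slice_two (contDiff_sec hu z) (β := β) hb
  have h1 : ∀ s y : ℝ, fderiv ℝ (fun p : ℝ × ℝ => u !₂[z, p.1, p.2]) (s, y) (1, 0) =
      D u 1 !₂[z, s, y] := fun s y => (fderiv_sec hu z (s, y)).1
  have h2 : ∀ s y : ℝ, fderiv ℝ (fun p : ℝ × ℝ => u !₂[z, p.1, p.2]) (s, y) (0, 1) =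
      D u 2 !₂[z, s, y] := fun s y => (fderiv_sec hu z (s, y)).2
  simp only [h1, h2] at key
  unfold mz gz bz
  rw [hsg]
  exact key

end Pool.Agent.Lib.MP_d01728_an
end

section

open MeasureTheory Set Measure
open scoped ENNReal NNReal

namespace Pool.Agent.Lib.MP_d01728_an

theorem setIntegral_Om' {b : ℝ} (hb : 0 < b) {F : E3 → ℝ} (hF : Continuous F) :
    ∫ x in Om b, F x = ∫ z in (-500:ℝ)..500, ∫ s in (0:ℝ)..(sg z),
      ∫ y in (-(b*(1-s)))..(b*(1-s)), F !₂[z, s, y] := by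
  rw [setIntegral_Om]
  have h : (fun p => F (e3.symm p)) = fun p : ℝ × (ℝ × ℝ) => F !₂[p.1, p.2.1, p.2.2] := by
    funext ⟨z, s, y⟩; rw [e3_symm_apply]
  rw [h, integral_Om3 hb]
  exact hF.comp (continuous_vec3 (by fun_prop) (by fun_prop) (by fun_prop))

/-- continuity of section integrals -/
theorem continuous_sec2 (b : ℝ) {F : E3 → ℝ} (hF : Continuous F) :
    Continuous fun z : ℝ => ∫ s in (0:ℝ)..(sg z), ∫ y in (-(b*(1-s)))..(b*(1-s)),
      F !₂[z, s, y] := by
  have h1 : Continuous (Function.uncurry fun (p : ℝ × ℝ) (y : ℝ) => F !₂[p.1, p.2, y]) :=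
    hF.comp (continuous_vec3 (by fun_prop) (by fun_prop) (by fun_prop))
  have h2 := continuous_iter h1 (by fun_prop : Continuous fun p : ℝ × ℝ => -(b*(1-p.2)))
    (by fun_prop : Continuous fun p : ℝ × ℝ => b*(1-p.2))
  have h3 : Continuous (Function.uncurry fun (z s : ℝ) => ∫ y in (-(b*(1-s)))..(b*(1-s)),
      F !₂[z, s, y]) := h2
  exact continuous_iter h3 continuous_const continuous_sg

theorem continuous_sec1 (b : ℝ) {F : E3 → ℝ} (hF : Continuous F) :
    Continuous fun z : ℝ => ∫ s in (0:ℝ)..(sg z),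
      (F !₂[z, s, b * (1 - s)] + F !₂[z, s, -(b * (1 - s))]) := by
  have h1 : Continuous (Function.uncurry fun (z s : ℝ) =>
      (F !₂[z, s, b * (1 - s)] + F !₂[z, s, -(b * (1 - s))])) :=
    (hF.comp (continuous_vec3 (by fun_prop) (by fun_prop) (by fun_prop))).add
    (hF.comp (continuous_vec3 (by fun_prop) (by fun_prop) (by fun_prop)))
  exact continuous_iter h1 continuous_const continuous_sg

theorem split_ge {a m : ℝ → ℝ} (ha : Continuous a) (hm : Continuous m) {c1 c2 : ℝ}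
    (h1 : ∀ z ∈ Icc (-400:ℝ) 400, c1 * m z ≤ a z)
    (h2 : ∀ z ∈ Icc (-500:ℝ) 500, 400 ≤ |z| → c2 * m z ≤ a z) :
    c1 * (∫ z in (-400:ℝ)..400, m z) +
      c2 * ((∫ z in (-500:ℝ)..500, m z) - ∫ z in (-400:ℝ)..400, m z) ≤
    ∫ z in (-500:ℝ)..500, a z := by
  have hi : ∀ p q : ℝ, IntervalIntegrable a volume p q := fun p q => ha.intervalIntegrable _ _
  have hj : ∀ p q : ℝ, IntervalIntegrable m volume p q := fun p q => hm.intervalIntegrable _ _
  have ea : ∫ z in (-500:ℝ)..500, a z = (∫ z in (-500:ℝ)..(-400), a z) +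
      (∫ z in (-400:ℝ)..400, a z) + ∫ z in (400:ℝ)..500, a z := by
    rw [intervalIntegral.integral_add_adjacent_intervals (hi _ _) (hi _ _),
      intervalIntegral.integral_add_adjacent_intervals (hi _ _) (hi _ _)]
  have em : ∫ z in (-500:ℝ)..500, m z = (∫ z in (-500:ℝ)..(-400), m z) +
      (∫ z in (-400:ℝ)..400, m z) + ∫ z in (400:ℝ)..500, m z := by
    rw [intervalIntegral.integral_add_adjacent_intervals (hj _ _) (hj _ _),
      intervalIntegral.integral_add_adjacent_intervals (hj _ _) (hj _ _)]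
  have i1 : c2 * (∫ z in (-500:ℝ)..(-400), m z) ≤ ∫ z in (-500:ℝ)..(-400), a z := by
    rw [← intervalIntegral.integral_const_mul]
    apply intervalIntegral.integral_mono_on (by norm_num)
      ((continuous_const.mul hm).intervalIntegrable _ _) (hi _ _)
    intro z hz
    refine h2 z ⟨hz.1, by linarith [hz.2]⟩ ?_
    rw [abs_of_nonpos (by linarith [hz.2])]
    linarith [hz.2]
  have i2 : c1 * (∫ z in (-400:ℝ)..400, m z) ≤ ∫ z in (-400:ℝ)..400, a z := by
    rw [← intervalIntegral.integral_const_mul]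
    apply intervalIntegral.integral_mono_on (by norm_num)
      ((continuous_const.mul hm).intervalIntegrable _ _) (hi _ _)
    intro z hz
    exact h1 z hz
  have i3 : c2 * (∫ z in (400:ℝ)..500, m z) ≤ ∫ z in (400:ℝ)..500, a z := by
    rw [← intervalIntegral.integral_const_mul]
    apply intervalIntegral.integral_mono_on (by norm_num)
      ((continuous_const.mul hm).intervalIntegrable _ _) (hi _ _)
    intro z hz
    refine h2 z ⟨by linarith [hz.1], hz.2⟩ ?_
    rw [abs_of_nonneg (by linarith [hz.1])]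
    exact hz.1
  rw [ea, em]
  linarith

/-- the mass -/
noncomputable def Ma (b : ℝ) (u : E3 → ℝ) : ℝ := ∫ x in Om b, u x ^ 2

/-- the energy, with boundary constant `A` -/
noncomputable def En (A b : ℝ) (u : E3 → ℝ) : ℝ :=
  (∫ x in Om b, ‖fderiv ℝ u x‖ ^ 2) + A * ∫ x in frontier (Om b), u x ^ 2 ∂(μH[2] : Measure E3)

theorem Ma_eq {b : ℝ} (hb : 0 < b) {u : E3 → ℝ} (hu : Continuous u) :
    Ma b u = ∫ z in (-500:ℝ)..500, mz b u z := by
  unfold Ma mz
  exact setIntegral_Om' hb (hu.pow 2)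

/-- mass in the middle part -/
noncomputable def Pm (b : ℝ) (u : E3 → ℝ) : ℝ := ∫ z in (-400:ℝ)..400, mz b u z

theorem continuous_mz (b : ℝ) {u : E3 → ℝ} (hu : Continuous u) : Continuous (mz b u) :=
  continuous_sec2 b (hu.pow 2)

theorem integrableOn_Om {b : ℝ} (hb : 0 < b) {F : E3 → ℝ} (hF : Continuous F) :
    IntegrableOn F (Om b) volume :=
  (hF.continuousOn.integrableOn_compact (isCompact_closure_Om hb)).mono_set subset_closure

theorem weighted_ge {k : ℝ} (hk : 0 < k)
    (hkm : (μH[2] : Measure E2) = ENNReal.ofReal k • (volume : Measure E2))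
    {A b β : ℝ} (hb : 0 < b) (hA0 : 0 ≤ A) (hA : A * k = β * b)
    {w : ℝ → ℝ} (hw : Continuous w) (hw0 : ∀ z, 0 ≤ w z)
    {u : E3 → ℝ} (hu : ContDiff ℝ 1 u) :
    ∫ z in (-500:ℝ)..500, w z * (gz b u z + β * b * bz b u z) ≤
    (∫ x in Om b, w (x 0) * (D u 1 x ^ 2 + D u 2 x ^ 2)) +
      A * ∫ x in frontier (Om b), w (x 0) * u x ^ 2 ∂(μH[2] : Measure E3) := by
  have huc := hu.continuous
  have c1 := continuous_D hu 1
  have c2 := continuous_D hu 2
  have cg : Continuous (gz b u) := continuous_sec2 b ((c1.pow 2).add (c2.pow 2))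
  have cb : Continuous (bz b u) := continuous_sec1 b (huc.pow 2)
  have cw : Continuous fun x : E3 => w (x 0) := hw.comp (by fun_prop)
  have e1 : ∫ x in Om b, w (x 0) * (D u 1 x ^ 2 + D u 2 x ^ 2) =
      ∫ z in (-500:ℝ)..500, w z * gz b u z := by
    have cF : Continuous fun x : E3 => w (x 0) * (D u 1 x ^ 2 + D u 2 x ^ 2) :=
      cw.mul ((c1.pow 2).add (c2.pow 2))
    rw [setIntegral_Om' hb cF]
    apply intervalIntegral.integral_congr
    intro z _
    simp only [gz, PiLp.toLp_apply, Matrix.cons_val_zero]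
    rw [← intervalIntegral.integral_const_mul]
    apply intervalIntegral.integral_congr
    intro s _
    simp only
    rw [← intervalIntegral.integral_const_mul]
  have cG : Continuous fun x : E3 => w (x 0) * u x ^ 2 := cw.mul (huc.pow 2)
  have e2 := surface_lower hk hkm hb cG
    (fun x => mul_nonneg (hw0 _) (sq_nonneg _))
  have e3 : ∫ z in (-500:ℝ)..500, ∫ s in (0:ℝ)..(sg z),
      (w ((!₂[z, s, b * (1 - s)] : E3) 0) * u !₂[z, s, b * (1 - s)] ^ 2 +
       w ((!₂[z, s, -(b * (1 - s))] : E3) 0) * u !₂[z, s, -(b * (1 - s))] ^ 2) =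
       ∫ z in (-500:ℝ)..500, w z * bz b u z := by
    apply intervalIntegral.integral_congr
    intro z _
    simp only [bz, PiLp.toLp_apply, Matrix.cons_val_zero]
    rw [← intervalIntegral.integral_const_mul]
    apply intervalIntegral.integral_congr
    intro s _
    simp only
    ring
  have e4 : ∫ z in (-500:ℝ)..500, w z * (gz b u z + β * b * bz b u z) =
      (∫ z in (-500:ℝ)..500, w z * gz b u z) +
      A * (k * ∫ z in (-500:ℝ)..500, w z * bz b u z) := by
    have i1 : Continuous fun z => w z * gz b u z := hw.mul cg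
    have i2 : Continuous fun z => β * b * (w z * bz b u z) := continuous_const.mul (hw.mul cb)
    rw [← mul_assoc, hA, ← intervalIntegral.integral_const_mul,
      ← intervalIntegral.integral_add (i1.intervalIntegrable _ _) (i2.intervalIntegrable _ _)]
    apply intervalIntegral.integral_congr
    intro z _
    simp only
    ring
  rw [e4, e1]
  rw [← e3]
  gcongr

theorem energy_ge {k : ℝ} (hk : 0 < k)
    (hkm : (μH[2] : Measure E2) = ENNReal.ofReal k • (volume : Measure E2))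
    {A b β : ℝ} (hb : 0 < b) (hβ : 0 ≤ β) (hA0 : 0 ≤ A) (hA : A * k = β * b)
    {u : E3 → ℝ} (hu : ContDiff ℝ 1 u) :
    (2 * β - β ^ 2 * (1 + b ^ 2)) * Pm b u + (β - β ^ 2 * b ^ 2) * (Ma b u - Pm b u) ≤
      En A b u := by
  have huc := hu.continuous
  have c0 := continuous_D hu 0
  have c1 := continuous_D hu 1
  have c2 := continuous_D hu 2
  have cg : Continuous (gz b u) := continuous_sec2 b ((c1.pow 2).add (c2.pow 2))
  have cb : Continuous (bz b u) := continuous_sec1 b (huc.pow 2)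
  have h1 := weighted_ge hk hkm hb hA0 hA (w := fun _ => 1) continuous_const
    (fun _ => zero_le_one) hu
  simp only [one_mul] at h1
  have h2 := split_ge (a := fun z => gz b u z + β * b * bz b u z) (m := mz b u)
    (cg.add (continuous_const.mul cb)) (continuous_mz b huc)
    (fun z hz => section_mid hu (β := β) hb hz) (fun z hz _ => section_out hu hb hβ hz)
  rw [← Ma_eq hb huc] at h2
  have h3 : ∫ x in Om b, (D u 1 x ^ 2 + D u 2 x ^ 2) ≤ ∫ x in Om b, ‖fderiv ℝ u x‖ ^ 2 := by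
    apply setIntegral_mono
    · exact integrableOn_Om hb ((c1.pow 2).add (c2.pow 2))
    · apply integrableOn_Om hb
      exact ((hu.continuous_fderiv (by norm_num)).norm.pow 2)
    · intro x
      simp only [norm_fderiv_sq' u x]
      nlinarith [sq_nonneg (D u 0 x)]
  unfold En
  unfold Pm
  linarith

end Pool.Agent.Lib.MP_d01728_an
end

section

open MeasureTheory Set Measure
open scoped ENNReal NNReal

namespace Pool.Agent.Lib.MP_d01728_an

theorem hasFDerivAt_coord (x : E3) (i : Fin 3) :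
    HasFDerivAt (fun x : E3 => x i) (EuclideanSpace.proj i : E3 →L[ℝ] ℝ) x :=
  (EuclideanSpace.proj i : E3 →L[ℝ] ℝ).hasFDerivAt

theorem fderiv_fun_zero {f : ℝ → ℝ} {f' : ℝ} (x : E3) (hf : HasDerivAt f f' (x 0)) :
    HasFDerivAt (fun x : E3 => f (x 0)) (f' • (EuclideanSpace.proj 0 : E3 →L[ℝ] ℝ)) x :=
  hf.comp_hasFDerivAt x (hasFDerivAt_coord x 0)

theorem integral_right {F G : ℝ → ℝ} (hF : Continuous F) (h1 : ∀ z, z ≤ 400 → F z = 0)
    (h2 : ∀ z ∈ Icc (400:ℝ) 500, F z = G z) :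
    ∫ z in (-500:ℝ)..500, F z = ∫ z in (400:ℝ)..500, G z := by
  rw [← intervalIntegral.integral_add_adjacent_intervals (hF.intervalIntegrable (-500) 400)
    (hF.intervalIntegrable 400 500)]
  have e1 : ∫ z in (-500:ℝ)..400, F z = 0 := by
    rw [intervalIntegral.integral_congr (g := fun _ => (0:ℝ))]
    · simp
    · intro z hz
      rw [uIcc_of_le (by norm_num)] at hz
      exact h1 z hz.2
  have e2 : ∫ z in (400:ℝ)..500, F z = ∫ z in (400:ℝ)..500, G z := by
    apply intervalIntegral.integral_congr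
    intro z hz
    rw [uIcc_of_le (by norm_num)] at hz
    exact h2 z hz
  rw [e1, e2, zero_add]

theorem sg_right {z : ℝ} (hz : z ∈ Icc (400:ℝ) 500) : sg z = (500 - z) / 100 := by
  unfold sg
  rw [abs_of_nonneg (by linarith [hz.1])]
  apply min_eq_right
  rw [div_le_iff₀ (by norm_num)]
  linarith [hz.1]

/-- the section integral of a function of `z` alone -/
theorem sec2_const (b c σ : ℝ) : ∫ s in (0:ℝ)..σ, ∫ _y in (-(b*(1-s)))..(b*(1-s)), c =
    c * (b * (2 * σ - σ ^ 2)) := by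
  have : ∀ s : ℝ, ∫ _y in (-(b*(1-s)))..(b*(1-s)), c = (2 * b * c) * (1 - s) := by
    intro s
    rw [intervalIntegral.integral_const, smul_eq_mul]; ring
  simp only [this]
  rw [intervalIntegral.integral_const_mul, intervalIntegral.integral_sub (by simp) (by simp)]
  simp
  ring

theorem integral_poly4 (c d : ℝ) :
    ∫ z in (400:ℝ)..500, (c * (z - 400) ^ 4 + d * (z - 400) ^ 6) =
      c * (100 ^ 5 / 5) + d * (100 ^ 7 / 7) := by
  have h : ∀ n : ℕ, ∫ z in (400:ℝ)..500, (z - 400) ^ n = 100 ^ (n + 1) / (n + 1) := by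
    intro n
    rw [intervalIntegral.integral_comp_sub_right (fun z => z ^ n) 400, integral_pow]
    norm_num
  rw [intervalIntegral.integral_add, intervalIntegral.integral_const_mul,
    intervalIntegral.integral_const_mul, h 4, h 6]
  · norm_num
  · exact Continuous.intervalIntegrable (by fun_prop) _ _
  · exact Continuous.intervalIntegrable (by fun_prop) _ _

theorem integral_poly2 (c d : ℝ) :
    ∫ z in (400:ℝ)..500, (c * (z - 400) ^ 2 + d * (z - 400) ^ 4) =
      c * (100 ^ 3 / 3) + d * (100 ^ 5 / 5) := by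
  have h : ∀ n : ℕ, ∫ z in (400:ℝ)..500, (z - 400) ^ n = 100 ^ (n + 1) / (n + 1) := by
    intro n
    rw [intervalIntegral.integral_comp_sub_right (fun z => z ^ n) 400, integral_pow]
    norm_num
  rw [intervalIntegral.integral_add, intervalIntegral.integral_const_mul,
    intervalIntegral.integral_const_mul, h 2, h 4]
  · norm_num
  · exact Continuous.intervalIntegrable (by fun_prop) _ _
  · exact Continuous.intervalIntegrable (by fun_prop) _ _

theorem integral_poly5 (c d : ℝ) :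
    ∫ z in (400:ℝ)..500, (c * (z - 400) ^ 4 + d * (z - 400) ^ 5) =
      c * (100 ^ 5 / 5) + d * (100 ^ 6 / 6) := by
  have h : ∀ n : ℕ, ∫ z in (400:ℝ)..500, (z - 400) ^ n = 100 ^ (n + 1) / (n + 1) := by
    intro n
    rw [intervalIntegral.integral_comp_sub_right (fun z => z ^ n) 400, integral_pow]
    norm_num
  rw [intervalIntegral.integral_add, intervalIntegral.integral_const_mul,
    intervalIntegral.integral_const_mul, h 4, h 5]
  · norm_num
  · exact Continuous.intervalIntegrable (by fun_prop) _ _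
  · exact Continuous.intervalIntegrable (by fun_prop) _ _

/-- the trial function on `E3` -/
noncomputable def u0 (x : E3) : ℝ := phi (x 0)

theorem contDiff_coord (i : Fin 3) : ContDiff ℝ 1 (fun x : E3 => x i) :=
  (EuclideanSpace.proj i : E3 →L[ℝ] ℝ).contDiff

theorem contDiff_u0 : ContDiff ℝ 1 u0 := contDiff_phi.comp (contDiff_coord 0)

theorem Ma_trial {b : ℝ} (hb : 0 < b) : Ma b u0 = 2 * 10 ^ 10 * b / 35 := by
  have hc : Continuous u0 := contDiff_u0.continuous
  rw [Ma_eq hb hc]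
  have hm : ∀ z, mz b u0 z = phi z ^ 2 * (b * (2 * sg z - sg z ^ 2)) := by
    intro z
    unfold mz u0
    simp only [PiLp.toLp_apply, Matrix.cons_val_zero]
    exact sec2_const b (phi z ^ 2) (sg z)
  rw [integral_right (G := fun z => b * (z - 400) ^ 4 + (-b / 10000) * (z - 400) ^ 6)
    (continuous_mz b hc)]
  · rw [integral_poly4]; ring
  · intro z hz
    rw [hm]; unfold phi; rw [max_eq_right (by linarith)]; ring
  · intro z hz
    rw [hm, sg_right hz]; unfold phi; rw [max_eq_left (by linarith [hz.1])]; ring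

theorem grad_trial {b : ℝ} (hb : 0 < b) :
    ∫ x in Om b, ‖fderiv ℝ u0 x‖ ^ 2 = 8 * 10 ^ 6 * b / 15 := by
  have hfd : ∀ x : E3, fderiv ℝ u0 x =
      (2 * max (x 0 - 400) 0) • (EuclideanSpace.proj 0 : E3 →L[ℝ] ℝ) := fun x =>
    (fderiv_fun_zero x (hasDerivAt_phi (x 0))).fderiv
  have hn : ∀ x : E3, ‖fderiv ℝ u0 x‖ ^ 2 = (2 * max (x 0 - 400) 0) ^ 2 := by
    intro x
    rw [norm_fderiv_sq, hfd]
    simp
  simp only [hn]
  have hc : Continuous fun x : E3 => (2 * max (x 0 - 400) 0) ^ 2 := by fun_prop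
  rw [setIntegral_Om' hb hc]
  simp only [PiLp.toLp_apply, Matrix.cons_val_zero, sec2_const]
  have cs := continuous_sg
  rw [integral_right (G := fun z => (4 * b) * (z - 400) ^ 2 + (-b / 2500) * (z - 400) ^ 4)
    (by fun_prop)]
  · rw [integral_poly2]; ring
  · intro z hz
    rw [max_eq_right (by linarith)]; ring
  · intro z hz
    rw [sg_right hz, max_eq_left (by linarith [hz.1])]; ring

theorem bd_trial : ∫ z in (-500:ℝ)..500, ∫ _s in (0:ℝ)..(sg z), phi z ^ 2 = 10 ^ 10 / 30 := by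
  have h : ∀ z, ∫ _s in (0:ℝ)..(sg z), phi z ^ 2 = sg z * phi z ^ 2 := by
    intro z; simp
  simp only [h]
  have cs := continuous_sg
  have cp := contDiff_phi.continuous
  rw [integral_right (G := fun z => 1 * (z - 400) ^ 4 + (-1 / 100) * (z - 400) ^ 5)
    (by fun_prop)]
  · rw [integral_poly5]; norm_num
  · intro z hz
    unfold phi; rw [max_eq_right (by linarith)]; ring
  · intro z hz
    rw [sg_right hz]; unfold phi; rw [max_eq_left (by linarith [hz.1])]; ring

theorem En_trial {k : ℝ} (hk : 0 < k)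
    (hkm : (μH[2] : Measure E2) = ENNReal.ofReal k • (volume : Measure E2))
    {A b : ℝ} (hb : 0 < b) (hA0 : 0 ≤ A) :
    En A b u0 ≤ 8 * 10 ^ 6 * b / 15 +
      A * k * (2 * (1 + b ^ 2) * (10 ^ 10 / 30) + 10 ^ 8 * (42804 * b)) := by
  unfold En
  rw [grad_trial hb]
  have h := surface_upper hk hkm hb (h := fun z => phi z ^ 2) (contDiff_phi.continuous.pow 2)
    (fun z => sq_nonneg _) (M := 10 ^ 8) (by
      intro z hz
      unfold phi
      rcases le_total (z - 400) 0 with h' | h'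
      · rw [max_eq_right h']; norm_num
      · rw [max_eq_left h']
        have h1 : z - 400 ≤ 100 := by linarith [hz.2]
        calc ((z - 400) ^ 2) ^ 2 = (z - 400) ^ 4 := by ring
          _ ≤ 100 ^ 4 := by gcongr
          _ = 10 ^ 8 := by norm_num)
  rw [bd_trial] at h
  have h2 := mul_le_mul_of_nonneg_left h hA0
  rw [← mul_assoc] at h2
  unfold u0
  linarith

end Pool.Agent.Lib.MP_d01728_an
end

section

open MeasureTheory Set Measure
open scoped ENNReal NNReal

namespace Pool.Agent.Lib.MP_d01728_an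

/-- the reflection in the first coordinate -/
noncomputable def rho : E3 ≃ₗᵢ[ℝ] E3 where
  toFun x := !₂[-x 0, x 1, x 2]
  invFun x := !₂[-x 0, x 1, x 2]
  left_inv x := by ext i; fin_cases i <;> simp
  right_inv x := by ext i; fin_cases i <;> simp
  map_add' x y := by ext i; fin_cases i <;> simp; ring
  map_smul' c x := by ext i; fin_cases i <;> simp
  norm_map' x := by
    simp [EuclideanSpace.norm_eq, Fin.sum_univ_three]

theorem rho_apply (x : E3) : rho x = !₂[-x 0, x 1, x 2] := rfl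

theorem rho_mem_Om {b : ℝ} (x : E3) : rho x ∈ Om b ↔ x ∈ Om b := by
  simp [Om, rho_apply]

theorem rho_preimage_Om (b : ℝ) : rho ⁻¹' (Om b) = Om b := by
  ext x; exact rho_mem_Om x

theorem rho_preimage_frontier (b : ℝ) : rho ⁻¹' (frontier (Om b)) = frontier (Om b) := by
  have := rho.toHomeomorph.preimage_frontier (Om b)
  have h2 : (rho.toHomeomorph ⁻¹' (Om b)) = Om b := rho_preimage_Om b
  rw [h2] at this
  exact this

theorem integral_rho {b : ℝ} (F : E3 → ℝ) : ∫ x in Om b, F (rho x) = ∫ x in Om b, F x := by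
  have h := rho.measurePreserving.setIntegral_preimage_emb
    rho.toHomeomorph.measurableEmbedding F (Om b)
  rwa [rho_preimage_Om] at h

theorem integral_rho_frontier {b : ℝ} (F : E3 → ℝ) :
    ∫ x in frontier (Om b), F (rho x) ∂(μH[2] : Measure E3) =
    ∫ x in frontier (Om b), F x ∂(μH[2] : Measure E3) := by
  have h := (rho.toIsometryEquiv.measurePreserving_hausdorffMeasure 2).setIntegral_preimage_emb
    rho.toHomeomorph.measurableEmbedding F (frontier (Om b))
  have h2 : (rho.toIsometryEquiv ⁻¹' (frontier (Om b))) = frontier (Om b) :=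
    rho_preimage_frontier b
  rw [h2] at h
  exact h

/-- bilinear form of the energy -/
noncomputable def Bn (A b : ℝ) (u v : E3 → ℝ) : ℝ :=
  (∫ x in Om b, (D u 0 x * D v 0 x + D u 1 x * D v 1 x + D u 2 x * D v 2 x)) +
    A * ∫ x in frontier (Om b), u x * v x ∂(μH[2] : Measure E3)

/-- bilinear form of the mass -/
noncomputable def Mb (b : ℝ) (u v : E3 → ℝ) : ℝ := ∫ x in Om b, u x * v x

theorem D_comb {u v : E3 → ℝ} (hu : ContDiff ℝ 1 u) (hv : ContDiff ℝ 1 v) (p q : ℝ) (i : Fin 3)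
    (x : E3) : D (fun x => p * u x + q * v x) i x = p * D u i x + q * D v i x := by
  have h1 := (hu.differentiable (by norm_num) x).hasFDerivAt
  have h2 := (hv.differentiable (by norm_num) x).hasFDerivAt
  have h3 : HasFDerivAt (fun x => p * u x + q * v x) (p • fderiv ℝ u x + q • fderiv ℝ v x) x :=
    (h1.const_mul p).add (h2.const_mul q)
  unfold D
  rw [h3.fderiv]
  simp

theorem Ma_comb {b : ℝ} (hb : 0 < b) {u v : E3 → ℝ} (hu : Continuous u) (hv : Continuous v)
    (p q : ℝ) :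
    Ma b (fun x => p * u x + q * v x) = p ^ 2 * Ma b u + 2 * p * q * Mb b u v + q ^ 2 * Ma b v := by
  unfold Ma Mb
  have c1 : Continuous fun x => p ^ 2 * u x ^ 2 := by fun_prop
  have c2 : Continuous fun x => 2 * p * q * (u x * v x) := by fun_prop
  have c3 : Continuous fun x => q ^ 2 * v x ^ 2 := by fun_prop
  have c4 : Continuous fun x => p ^ 2 * u x ^ 2 + 2 * p * q * (u x * v x) := by fun_prop
  rw [← integral_const_mul, ← integral_const_mul, ← integral_const_mul,
    ← integral_add (integrableOn_Om hb c1) (integrableOn_Om hb c2),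
    ← integral_add (integrableOn_Om hb c4) (integrableOn_Om hb c3)]
  congr 1
  ext x
  ring

theorem En_eq {A b : ℝ} (u : E3 → ℝ) :
    En A b u = (∫ x in Om b, (D u 0 x ^ 2 + D u 1 x ^ 2 + D u 2 x ^ 2)) +
    A * ∫ x in frontier (Om b), u x ^ 2 ∂(μH[2] : Measure E3) := by
  unfold En
  simp only [norm_fderiv_sq']

theorem En_comb {k : ℝ} (hk : 0 < k)
    (hkm : (μH[2] : Measure E2) = ENNReal.ofReal k • (volume : Measure E2))
    {A b : ℝ} (hb : 0 < b) {u v : E3 → ℝ} (hu : ContDiff ℝ 1 u) (hv : ContDiff ℝ 1 v)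
    (p q : ℝ) :
    En A b (fun x => p * u x + q * v x) =
      p ^ 2 * En A b u + 2 * p * q * Bn A b u v + q ^ 2 * En A b v := by
  have hu' := hu.continuous
  have hv' := hv.continuous
  have d0 := continuous_D hu 0
  have d1 := continuous_D hu 1
  have d2 := continuous_D hu 2
  have e0 := continuous_D hv 0
  have e1 := continuous_D hv 1
  have e2 := continuous_D hv 2
  rw [En_eq, En_eq, En_eq]
  unfold Bn
  simp only [D_comb hu hv]
  have hvol : ∫ x in Om b, ((p * D u 0 x + q * D v 0 x) ^ 2 + (p * D u 1 x + q * D v 1 x) ^ 2 +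
      (p * D u 2 x + q * D v 2 x) ^ 2) =
      p ^ 2 * (∫ x in Om b, (D u 0 x ^ 2 + D u 1 x ^ 2 + D u 2 x ^ 2)) +
      2 * p * q * (∫ x in Om b, (D u 0 x * D v 0 x + D u 1 x * D v 1 x + D u 2 x * D v 2 x)) +
      q ^ 2 * (∫ x in Om b, (D v 0 x ^ 2 + D v 1 x ^ 2 + D v 2 x ^ 2)) := by
    have c1 : Continuous fun x => p ^ 2 * (D u 0 x ^ 2 + D u 1 x ^ 2 + D u 2 x ^ 2) := by fun_prop
    have c2 : Continuous fun x => 2 * p * q *
      (D u 0 x * D v 0 x + D u 1 x * D v 1 x + D u 2 x * D v 2 x) := by fun_prop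
    have c3 : Continuous fun x => q ^ 2 * (D v 0 x ^ 2 + D v 1 x ^ 2 + D v 2 x ^ 2) := by fun_prop
    have c4 : Continuous fun x => p ^ 2 * (D u 0 x ^ 2 + D u 1 x ^ 2 + D u 2 x ^ 2) + 2 * p * q *
      (D u 0 x * D v 0 x + D u 1 x * D v 1 x + D u 2 x * D v 2 x) := by fun_prop
    rw [← integral_const_mul, ← integral_const_mul, ← integral_const_mul,
      ← integral_add (integrableOn_Om hb c1) (integrableOn_Om hb c2),
      ← integral_add (integrableOn_Om hb c4) (integrableOn_Om hb c3)]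
    congr 1
    ext x
    ring
  have hsur : ∫ x in frontier (Om b), (p * u x + q * v x) ^ 2 ∂(μH[2] : Measure E3) =
      p ^ 2 * (∫ x in frontier (Om b), u x ^ 2 ∂(μH[2] : Measure E3)) +
      2 * p * q * (∫ x in frontier (Om b), u x * v x ∂(μH[2] : Measure E3)) +
      q ^ 2 * (∫ x in frontier (Om b), v x ^ 2 ∂(μH[2] : Measure E3)) := by
    have c1 : Continuous fun x => p ^ 2 * u x ^ 2 := by fun_prop
    have c2 : Continuous fun x => 2 * p * q * (u x * v x) := by fun_prop
    have c3 : Continuous fun x => q ^ 2 * v x ^ 2 := by fun_prop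
    have c4 : Continuous fun x => p ^ 2 * u x ^ 2 + 2 * p * q * (u x * v x) := by fun_prop
    rw [← integral_const_mul, ← integral_const_mul, ← integral_const_mul,
      ← integral_add (integrableOn_frontier hk hkm hb c1) (integrableOn_frontier hk hkm hb c2),
      ← integral_add (integrableOn_frontier hk hkm hb c4) (integrableOn_frontier hk hkm hb c3)]
    congr 1
    ext x
    ring
  rw [hvol, hsur]
  ring

theorem D_rho {u : E3 → ℝ} (hu : ContDiff ℝ 1 u) (x : E3) :
    D (fun x => u (rho x)) 0 x = - D u 0 (rho x) ∧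
    D (fun x => u (rho x)) 1 x = D u 1 (rho x) ∧
    D (fun x => u (rho x)) 2 x = D u 2 (rho x) := by
  have h1 := (hu.differentiable (by norm_num) (rho x)).hasFDerivAt
  have h2 : HasFDerivAt (fun x => u (rho x))
      ((fderiv ℝ u (rho x)).comp (rho.toContinuousLinearEquiv : E3 →L[ℝ] E3)) x :=
    h1.comp x (rho.toContinuousLinearEquiv : E3 →L[ℝ] E3).hasFDerivAt
  have r0 : rho (EuclideanSpace.single 0 1) = -(EuclideanSpace.single 0 1 : E3) := by
    ext i; fin_cases i <;> simp [rho_apply]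
  have r1 : rho (EuclideanSpace.single 1 1) = (EuclideanSpace.single 1 1 : E3) := by
    ext i; fin_cases i <;> simp [rho_apply]
  have r2 : rho (EuclideanSpace.single 2 1) = (EuclideanSpace.single 2 1 : E3) := by
    ext i; fin_cases i <;> simp [rho_apply]
  unfold D
  rw [h2.fderiv]
  refine ⟨?_, ?_, ?_⟩
  · show (fderiv ℝ u (rho x)) (rho (EuclideanSpace.single 0 1)) = _
    rw [r0, map_neg]
  · show (fderiv ℝ u (rho x)) (rho (EuclideanSpace.single 1 1)) = _
    rw [r1]
  · show (fderiv ℝ u (rho x)) (rho (EuclideanSpace.single 2 1)) = _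
    rw [r2]

theorem Mb_rho {b : ℝ} (u v : E3 → ℝ) :
    Mb b (fun x => u (rho x)) (fun x => v (rho x)) = Mb b u v :=
  integral_rho (fun x => u x * v x)

theorem Ma_rho {b : ℝ} (u : E3 → ℝ) : Ma b (fun x => u (rho x)) = Ma b u :=
  integral_rho (fun x => u x ^ 2)

theorem Bn_rho {A b : ℝ} {u v : E3 → ℝ} (hu : ContDiff ℝ 1 u) (hv : ContDiff ℝ 1 v) :
    Bn A b (fun x => u (rho x)) (fun x => v (rho x)) = Bn A b u v := by
  unfold Bn
  rw [integral_rho_frontier (fun x => u x * v x),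
    ← integral_rho (fun x => D u 0 x * D v 0 x + D u 1 x * D v 1 x + D u 2 x * D v 2 x)]
  congr 2
  ext x
  obtain ⟨a0, a1, a2⟩ := D_rho hu x
  obtain ⟨b0, b1, b2⟩ := D_rho hv x
  rw [a0, a1, a2, b0, b1, b2]
  ring

theorem En_rho {A b : ℝ} {u : E3 → ℝ} (hu : ContDiff ℝ 1 u) :
    En A b (fun x => u (rho x)) = En A b u := by
  rw [En_eq, En_eq]
  rw [integral_rho_frontier (fun x => u x ^ 2),
    ← integral_rho (fun x => D u 0 x ^ 2 + D u 1 x ^ 2 + D u 2 x ^ 2)]
  congr 2
  ext x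
  obtain ⟨a0, a1, a2⟩ := D_rho hu x
  rw [a0, a1, a2]
  ring

end Pool.Agent.Lib.MP_d01728_an
end

section

open MeasureTheory Set Measure
open scoped ENNReal NNReal

namespace Pool.Agent.Lib.MP_d01728_an

/-- the cut function -/
noncomputable def Sv (v : E3 → ℝ) (x : E3) : ℝ := S (x 0) * v x

theorem contDiff_Sv {v : E3 → ℝ} (hv : ContDiff ℝ 1 v) : ContDiff ℝ 1 (Sv v) :=
  (contDiff_S.comp (contDiff_coord 0)).mul hv

theorem D_Sv {v : E3 → ℝ} (hv : ContDiff ℝ 1 v) (x : E3) :
    D (Sv v) 0 x = S (x 0) * D v 0 x + Sd (x 0) * v x ∧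
    D (Sv v) 1 x = S (x 0) * D v 1 x ∧ D (Sv v) 2 x = S (x 0) * D v 2 x := by
  have h1 := (hv.differentiable (by norm_num) x).hasFDerivAt
  have h2 : HasFDerivAt (Sv v) (S (x 0) • fderiv ℝ v x +
      v x • (Sd (x 0) • (EuclideanSpace.proj 0 : E3 →L[ℝ] ℝ))) x :=
    (fderiv_fun_zero x (hasDerivAt_S (x 0))).mul h1
  unfold D
  rw [h2.fderiv]
  refine ⟨?_, ?_, ?_⟩ <;> simp
  ring

theorem Pm_nonneg {b : ℝ} (hb : 0 < b) (u : E3 → ℝ) : 0 ≤ Pm b u := by
  unfold Pm
  apply intervalIntegral.integral_nonneg (by norm_num)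
  intro z hz
  unfold mz
  apply intervalIntegral.integral_nonneg (sg_nonneg ⟨by linarith [hz.1], by linarith [hz.2]⟩)
  intro s hs
  have hs1 : s ≤ 1 := hs.2.trans (min_le_left _ _)
  have : 0 ≤ b * (1 - s) := mul_nonneg hb.le (by linarith)
  apply intervalIntegral.integral_nonneg (by linarith)
  intro y _
  exact sq_nonneg _

theorem mz_nonneg {b : ℝ} (hb : 0 < b) (u : E3 → ℝ) {z : ℝ} (hz : z ∈ Icc (-500:ℝ) 500) :
    0 ≤ mz b u z := by
  unfold mz
  apply intervalIntegral.integral_nonneg (sg_nonneg hz)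
  intro s hs
  have hs1 : s ≤ 1 := hs.2.trans (min_le_left _ _)
  have : 0 ≤ b * (1 - s) := mul_nonneg hb.le (by linarith)
  apply intervalIntegral.integral_nonneg (by linarith)
  intro y _
  exact sq_nonneg _

theorem mz_Sv (b : ℝ) (v : E3 → ℝ) (z : ℝ) : mz b (Sv v) z = S z ^ 2 * mz b v z := by
  unfold mz
  rw [← intervalIntegral.integral_const_mul]
  apply intervalIntegral.integral_congr
  intro s _
  simp only
  rw [← intervalIntegral.integral_const_mul]
  apply intervalIntegral.integral_congr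
  intro y _
  simp only [Sv, Matrix.cons_val_zero]
  ring

theorem Ma_diff {b : ℝ} (hb : 0 < b) {v : E3 → ℝ} (hv : ContDiff ℝ 1 v) :
    Ma b v - Ma b (Sv v) = ∫ z in (-500:ℝ)..500, (1 - S z ^ 2) * mz b v z := by
  have c1 := continuous_mz b hv.continuous
  have c2 := continuous_mz b (contDiff_Sv hv).continuous
  rw [Ma_eq hb hv.continuous, Ma_eq hb (contDiff_Sv hv).continuous,
    ← intervalIntegral.integral_sub (c1.intervalIntegrable _ _) (c2.intervalIntegrable _ _)]
  apply intervalIntegral.integral_congr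
  intro z _
  simp only [mz_Sv]
  ring

theorem Ma_Sv_ge {b : ℝ} (hb : 0 < b) {v : E3 → ℝ} (hv : ContDiff ℝ 1 v) :
    Ma b v - Pm b v ≤ Ma b (Sv v) := by
  have c1 := continuous_mz b hv.continuous
  have c2 := continuous_mz b (contDiff_Sv hv).continuous
  have h := split_ge (a := mz b (Sv v)) (m := mz b v) (c1 := 0) (c2 := 1) c2 c1
    (by
      intro z hz
      rw [mz_Sv, zero_mul]
      exact mul_nonneg (sq_nonneg _) (mz_nonneg hb v ⟨by linarith [hz.1], by linarith [hz.2]⟩))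
    (by
      intro z _ hz'
      rw [mz_Sv, S_sq_out hz'])
  rw [← Ma_eq hb hv.continuous, ← Ma_eq hb (contDiff_Sv hv).continuous] at h
  unfold Pm
  linarith

theorem cut_energy {k : ℝ} (hk : 0 < k)
    (hkm : (μH[2] : Measure E2) = ENNReal.ofReal k • (volume : Measure E2))
    {A b β : ℝ} (hb : 0 < b) (hA0 : 0 ≤ A) (hA : A * k = β * b)
    {v : E3 → ℝ} (hv : ContDiff ℝ 1 v) :
    En A b (Sv v) ≤ En A b v - (2 * β - β ^ 2 * (1 + b ^ 2)) * (Ma b v - Ma b (Sv v)) +
      3 / 160000 * Pm b v := by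
  have hvc := hv.continuous
  have d0 := continuous_D hv 0
  have d1 := continuous_D hv 1
  have d2 := continuous_D hv 2
  have cS : Continuous fun x : E3 => S (x 0) := continuous_S.comp (by fun_prop)
  have cSd : Continuous fun x : E3 => Sd (x 0) := continuous_Sd.comp (by fun_prop)
  -- the z-part
  have hz : -(3 / 160000) * Pm b v ≤
      ∫ x in Om b, (D v 0 x ^ 2 - (S (x 0) * D v 0 x + Sd (x 0) * v x) ^ 2) := by
    have cF : Continuous fun x : E3 => D v 0 x ^ 2 - (S (x 0) * D v 0 x + Sd (x 0) * v x) ^ 2 := by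
      fun_prop
    rw [setIntegral_Om' hb cF]
    have h := split_ge (a := fun z => ∫ s in (0:ℝ)..(sg z), ∫ y in (-(b*(1-s)))..(b*(1-s)),
      (D v 0 !₂[z, s, y] ^ 2 - (S ((!₂[z, s, y] : E3) 0) * D v 0 !₂[z, s, y] +
        Sd ((!₂[z, s, y] : E3) 0) * v !₂[z, s, y]) ^ 2))
      (m := mz b v) (c1 := -(3 / 160000)) (c2 := 0) (continuous_sec2 b cF) (continuous_mz b hvc)
      (by
        intro z hz
        have hz' : z ∈ Icc (-500:ℝ) 500 := ⟨by linarith [hz.1], by linarith [hz.2]⟩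
        have c1 : Continuous (Function.uncurry fun s y : ℝ => v !₂[z, s, y] ^ 2) :=
          (hvc.comp (continuous_vec3 (by fun_prop) (by fun_prop) (by fun_prop))).pow 2
        have c2 : Continuous (Function.uncurry fun s y : ℝ =>
          (D v 0 !₂[z, s, y] ^ 2 - (S ((!₂[z, s, y] : E3) 0) * D v 0 !₂[z, s, y] +
            Sd ((!₂[z, s, y] : E3) 0) * v !₂[z, s, y]) ^ 2)) :=
          cF.comp (continuous_vec3 (by fun_prop) (by fun_prop) (by fun_prop))
        have e1 := continuous_iter c1 (by fun_prop : Continuous fun s : ℝ => -(b*(1-s)))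
          (by fun_prop : Continuous fun s : ℝ => b*(1-s))
        have e2 := continuous_iter c2 (by fun_prop : Continuous fun s : ℝ => -(b*(1-s)))
          (by fun_prop : Continuous fun s : ℝ => b*(1-s))
        unfold mz
        rw [← intervalIntegral.integral_const_mul]
        apply intervalIntegral.integral_mono_on (sg_nonneg hz')
        · exact (continuous_const.mul e1).intervalIntegrable _ _
        · exact e2.intervalIntegrable _ _
        intro s hs
        have hs1 : s ≤ 1 := hs.2.trans (min_le_left _ _)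
        have : 0 ≤ b * (1 - s) := mul_nonneg hb.le (by linarith)
        rw [← intervalIntegral.integral_const_mul]
        apply intervalIntegral.integral_mono_on (by linarith)
        · exact (continuous_const.mul (c1.comp
            (by fun_prop : Continuous fun y : ℝ => (s, y)))).intervalIntegrable _ _
        · exact (c2.comp (by fun_prop : Continuous fun y : ℝ => (s, y))).intervalIntegrable _ _
        intro y _
        simp only [Matrix.cons_val_zero]
        exact cut_ineq z _ _)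
      (by
        intro z hz hz'
        rw [zero_mul]
        apply intervalIntegral.integral_nonneg (sg_nonneg hz)
        intro s hs
        have hs1 : s ≤ 1 := hs.2.trans (min_le_left _ _)
        have : 0 ≤ b * (1 - s) := mul_nonneg hb.le (by linarith)
        apply intervalIntegral.integral_nonneg (by linarith)
        intro y _
        simp only [Matrix.cons_val_zero]
        exact cut_ineq_out hz' _ _)
    unfold Pm
    linarith
  -- the transversal part
  have cw : Continuous fun z => 1 - S z ^ 2 := by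
    have := continuous_S
    fun_prop
  have ht := weighted_ge hk hkm hb hA0 hA (w := fun z => 1 - S z ^ 2) cw
    (fun z => by linarith [S_sq_le z]) hv
  have cg : Continuous (gz b v) := continuous_sec2 b ((d1.pow 2).add (d2.pow 2))
  have cb : Continuous (bz b v) := continuous_sec1 b (hvc.pow 2)
  have cm := continuous_mz b hvc
  have ht2 : (2 * β - β ^ 2 * (1 + b ^ 2)) * (∫ z in (-500:ℝ)..500, (1 - S z ^ 2) * mz b v z) ≤
      ∫ z in (-500:ℝ)..500, (1 - S z ^ 2) * (gz b v z + β * b * bz b v z) := by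
    have h := split_ge (a := fun z => (1 - S z ^ 2) * (gz b v z + β * b * bz b v z))
      (m := fun z => (1 - S z ^ 2) * mz b v z)
      (c1 := 2 * β - β ^ 2 * (1 + b ^ 2)) (c2 := 2 * β - β ^ 2 * (1 + b ^ 2))
      (by fun_prop) (by fun_prop)
      (by
        intro z hz
        have h1 := section_mid hv (β := β) hb hz
        have h2 : 0 ≤ 1 - S z ^ 2 := by linarith [S_sq_le z]
        calc (2 * β - β ^ 2 * (1 + b ^ 2)) * ((1 - S z ^ 2) * mz b v z)
            = (1 - S z ^ 2) * ((2 * β - β ^ 2 * (1 + b ^ 2)) * mz b v z) := by ring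
          _ ≤ _ := mul_le_mul_of_nonneg_left h1 h2)
      (by
        intro z _ hz'
        rw [S_sq_out hz']
        simp)
    linarith
  rw [Ma_diff hb hv]
  rw [En_eq, En_eq]
  -- rewrite the difference
  have hvol : (∫ x in Om b, (D v 0 x ^ 2 + D v 1 x ^ 2 + D v 2 x ^ 2)) -
      ∫ x in Om b, (D (Sv v) 0 x ^ 2 + D (Sv v) 1 x ^ 2 + D (Sv v) 2 x ^ 2) =
      (∫ x in Om b, (D v 0 x ^ 2 - (S (x 0) * D v 0 x + Sd (x 0) * v x) ^ 2)) +
      ∫ x in Om b, (1 - S (x 0) ^ 2) * (D v 1 x ^ 2 + D v 2 x ^ 2) := by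
    have hSv : ∀ x, D (Sv v) 0 x ^ 2 + D (Sv v) 1 x ^ 2 + D (Sv v) 2 x ^ 2 =
        (S (x 0) * D v 0 x + Sd (x 0) * v x) ^ 2 + (S (x 0) * D v 1 x) ^ 2 +
        (S (x 0) * D v 2 x) ^ 2 := by
      intro x
      obtain ⟨a0, a1, a2⟩ := D_Sv hv x
      rw [a0, a1, a2]
    simp only [hSv]
    have c1 : Continuous fun x : E3 => D v 0 x ^ 2 + D v 1 x ^ 2 + D v 2 x ^ 2 := by fun_prop
    have c2 : Continuous fun x : E3 => (S (x 0) * D v 0 x + Sd (x 0) * v x) ^ 2 +
        (S (x 0) * D v 1 x) ^ 2 + (S (x 0) * D v 2 x) ^ 2 := by fun_prop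
    have c3 : Continuous fun x : E3 =>
        D v 0 x ^ 2 - (S (x 0) * D v 0 x + Sd (x 0) * v x) ^ 2 := by fun_prop
    have c4 : Continuous fun x : E3 => (1 - S (x 0) ^ 2) * (D v 1 x ^ 2 + D v 2 x ^ 2) := by
      fun_prop
    rw [← integral_sub (integrableOn_Om hb c1) (integrableOn_Om hb c2),
      ← integral_add (integrableOn_Om hb c3) (integrableOn_Om hb c4)]
    congr 1
    ext x
    ring
  have hsur : (∫ x in frontier (Om b), v x ^ 2 ∂(μH[2] : Measure E3)) -
      ∫ x in frontier (Om b), (Sv v) x ^ 2 ∂(μH[2] : Measure E3) =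
      ∫ x in frontier (Om b), (1 - S (x 0) ^ 2) * v x ^ 2 ∂(μH[2] : Measure E3) := by
    have c1 : Continuous fun x : E3 => v x ^ 2 := by fun_prop
    have c2 : Continuous fun x : E3 => Sv v x ^ 2 := (contDiff_Sv hv).continuous.pow 2
    rw [← integral_sub (integrableOn_frontier hk hkm hb c1)
      (integrableOn_frontier hk hkm hb c2)]
    congr 1
    ext x
    unfold Sv
    ring
  have hsurA : A * (∫ x in frontier (Om b), v x ^ 2 ∂(μH[2] : Measure E3)) -
      A * ∫ x in frontier (Om b), (Sv v) x ^ 2 ∂(μH[2] : Measure E3) =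
      A * ∫ x in frontier (Om b), (1 - S (x 0) ^ 2) * v x ^ 2 ∂(μH[2] : Measure E3) := by
    rw [← hsur]; ring
  linarith

end Pool.Agent.Lib.MP_d01728_an
end

section

open MeasureTheory Set Measure
open scoped ENNReal NNReal

namespace Pool.Agent.Lib.MP_d01728_an

theorem rho_rho (x : E3) : rho (rho x) = x := by
  ext i; fin_cases i <;> simp [rho_apply]

theorem rho_zero (x : E3) : (rho x) 0 = - x 0 := by simp [rho_apply]

theorem contDiff_rho {u : E3 → ℝ} (hu : ContDiff ℝ 1 u) : ContDiff ℝ 1 (fun x => u (rho x)) :=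
  hu.comp rho.contDiff

theorem Bn_smul {A b p q : ℝ} {u v : E3 → ℝ} (hu : ContDiff ℝ 1 u) (hv : ContDiff ℝ 1 v) :
    Bn A b (fun x => p * u x) (fun x => q * v x) = p * q * Bn A b u v := by
  have h1 : ∀ i x, D (fun x => p * u x) i x = p * D u i x := by
    intro i x
    have := D_comb hu hu p 0 i x
    simpa using this
  have h2 : ∀ i x, D (fun x => q * v x) i x = q * D v i x := by
    intro i x
    have := D_comb hv hv q 0 i x
    simpa using this
  unfold Bn
  simp only [h1, h2]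
  have e1 : ∫ x in Om b, (p * D u 0 x * (q * D v 0 x) + p * D u 1 x * (q * D v 1 x) +
      p * D u 2 x * (q * D v 2 x)) = p * q *
      ∫ x in Om b, (D u 0 x * D v 0 x + D u 1 x * D v 1 x + D u 2 x * D v 2 x) := by
    rw [← integral_const_mul]
    congr 1; ext x; ring
  have e2 : ∫ x in frontier (Om b), p * u x * (q * v x) ∂(μH[2] : Measure E3) =
      p * q * ∫ x in frontier (Om b), u x * v x ∂(μH[2] : Measure E3) := by
    rw [← integral_const_mul]
    congr 1; ext x; ring
  rw [e1, e2]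
  ring

theorem pair_of_parity {k : ℝ} (hk : 0 < k)
    (hkm : (μH[2] : Measure E2) = ENNReal.ofReal k • (volume : Measure E2))
    {A b : ℝ} (hb : 0 < b) (hb1 : b ≤ 1 / 10 ^ 7) (hA0 : 0 ≤ A) (hA : A * k = 1 / 20 * b)
    {θ : ℝ} (hθ : θ ≤ 595 / 10000) {v : E3 → ℝ} (hv : ContDiff ℝ 1 v)
    (hE : En A b v < θ * Ma b v) {ε : ℝ} (hε : ε ^ 2 = 1) (hpar : ∀ x, v (rho x) = ε * v x) :
    ∃ v w : E3 → ℝ, ContDiff ℝ 1 v ∧ ContDiff ℝ 1 w ∧ 0 < Ma b v ∧ 0 < Ma b w ∧
      Mb b v w = 0 ∧ Bn A b v w = 0 ∧ En A b v ≤ θ * Ma b v ∧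
      En A b w ≤ (θ + 476 / 10 ^ 8) * Ma b w := by
  have hlow := energy_ge hk hkm hb (by norm_num : (0:ℝ) ≤ 1 / 20) hA0 hA hv
  have hcut := cut_energy hk hkm hb hA0 hA hv
  have hMge := Ma_Sv_ge hb hv
  have hP := Pm_nonneg hb v
  have hdiff : 0 ≤ Ma b v - Ma b (Sv v) := by
    rw [Ma_diff hb hv]
    apply intervalIntegral.integral_nonneg (by norm_num)
    intro z hz
    exact mul_nonneg (by linarith [S_sq_le z]) (mz_nonneg hb v hz)
  have hMnn : 0 ≤ Ma b v := by
    unfold Ma; exact integral_nonneg fun x => sq_nonneg _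
  set M := Ma b v with hM
  set P := Pm b v with hPdef
  set N := Ma b (Sv v) with hN
  have hb2 : b ^ 2 ≤ 1 / 10 ^ 14 := by
    calc b ^ 2 ≤ (1 / 10 ^ 7) ^ 2 := by gcongr
      _ = 1 / 10 ^ 14 := by norm_num
  have hb2' : 0 ≤ b ^ 2 := sq_nonneg b
  have hLmid : 974 / 10000 ≤ 2 * (1 / 20 : ℝ) - (1 / 20) ^ 2 * (1 + b ^ 2) := by
    nlinarith
  have hLout : 499 / 10000 ≤ (1 / 20 : ℝ) - (1 / 20) ^ 2 * b ^ 2 := by
    nlinarith
  set Lm := 2 * (1 / 20 : ℝ) - (1 / 20) ^ 2 * (1 + b ^ 2) with hLm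
  set Lo := (1 / 20 : ℝ) - (1 / 20) ^ 2 * b ^ 2 with hLo
  have hQ0 : 0 ≤ M - P := by
    have h := split_ge (a := mz b v) (m := mz b v) (c1 := 1) (c2 := 0)
      (continuous_mz b hv.continuous) (continuous_mz b hv.continuous)
      (by intro z _; rw [one_mul]) (by
        intro z hz _; rw [zero_mul]; exact mz_nonneg hb v hz)
    rw [← Ma_eq hb hv.continuous] at h
    rw [hM, hPdef]
    unfold Pm
    linarith
  -- the mass in the middle is small
  have h1 : (974 / 10000) * P + (499 / 10000) * (M - P) < (595 / 10000) * M := by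
    have a1 : (974 / 10000) * P ≤ Lm * P := mul_le_mul_of_nonneg_right hLmid hP
    have a2 : (499 / 10000) * (M - P) ≤ Lo * (M - P) := mul_le_mul_of_nonneg_right hLout hQ0
    have a3 : θ * M ≤ (595 / 10000) * M := mul_le_mul_of_nonneg_right hθ hMnn
    linarith
  have h2 : P < (2534 / 10000) * (M - P) := by linarith
  have hQ : 0 < M - P := by linarith
  have hNpos : 0 < N := by linarith
  have hMpos : 0 < M := by linarith
  have hw : En A b (Sv v) ≤ (θ + 476 / 10 ^ 8) * N := by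
    have b1 : θ * (M - N) ≤ Lm * (M - N) := mul_le_mul_of_nonneg_right (by linarith) hdiff
    have b2 : (3 / 160000 : ℝ) * P ≤ (476 / 10 ^ 8) * N := by
      have : P ≤ (2534 / 10000) * N := by linarith
      linarith
    linarith
  have hSpar : ∀ x, Sv v (rho x) = (-ε) * Sv v x := by
    intro x
    unfold Sv
    rw [rho_zero, S_neg, hpar]
    ring
  have e1 : (fun x => v (rho x)) = fun x => ε * v x := funext hpar
  have e2 : (fun x => Sv v (rho x)) = fun x => (-ε) * Sv v x := funext hSpar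
  have hMb : Mb b v (Sv v) = 0 := by
    have h := Mb_rho (b := b) v (Sv v)
    rw [e1, e2] at h
    have h3 : Mb b (fun x => ε * v x) (fun x => -ε * Sv v x) = - Mb b v (Sv v) := by
      unfold Mb
      rw [← integral_neg]
      congr 1; ext x
      have : ε * v x * (-ε * Sv v x) = - (ε ^ 2 * (v x * Sv v x)) := by ring
      rw [this, hε, one_mul]
    linarith
  have hBn : Bn A b v (Sv v) = 0 := by
    have h := Bn_rho (A := A) (b := b) hv (contDiff_Sv hv)
    rw [e1, e2, Bn_smul hv (contDiff_Sv hv)] at h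
    have : ε * -ε = -1 := by
      have : ε * -ε = -(ε ^ 2) := by ring
      rw [this, hε]
    rw [this] at h
    linarith
  exact ⟨v, Sv v, hv, contDiff_Sv hv, hMpos, hNpos, hMb, hBn, hE.le, hw⟩

theorem exists_pair {k : ℝ} (hk : 0 < k)
    (hkm : (μH[2] : Measure E2) = ENNReal.ofReal k • (volume : Measure E2))
    {A b : ℝ} (hb : 0 < b) (hb1 : b ≤ 1 / 10 ^ 7) (hA0 : 0 ≤ A) (hA : A * k = 1 / 20 * b)
    {θ : ℝ} (hθ : θ ≤ 595 / 10000) {u : E3 → ℝ} (hu : ContDiff ℝ 1 u)
    (hE : En A b u < θ * Ma b u) :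
    ∃ v w : E3 → ℝ, ContDiff ℝ 1 v ∧ ContDiff ℝ 1 w ∧ 0 < Ma b v ∧ 0 < Ma b w ∧
      Mb b v w = 0 ∧ Bn A b v w = 0 ∧ En A b v ≤ θ * Ma b v ∧
      En A b w ≤ (θ + 476 / 10 ^ 8) * Ma b w := by
  have hu' := contDiff_rho hu
  have c1 := hu.continuous
  have c2 := hu'.continuous
  have e1 := En_comb hk hkm (A := A) hb hu hu' (1/2) (1/2)
  have e2 := En_comb hk hkm (A := A) hb hu hu' (1/2) (-1/2)
  have m1 := Ma_comb hb c1 c2 (1/2) (1/2)
  have m2 := Ma_comb hb c1 c2 (1/2) (-1/2)
  rw [En_rho hu] at e1 e2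
  rw [Ma_rho] at m1 m2
  have s1 : ContDiff ℝ 1 (fun x => 1/2 * u x + 1/2 * u (rho x)) :=
    (contDiff_const.mul hu).add (contDiff_const.mul hu')
  have s2 : ContDiff ℝ 1 (fun x => 1/2 * u x + -1/2 * u (rho x)) :=
    (contDiff_const.mul hu).add (contDiff_const.mul hu')
  by_cases h : En A b (fun x => 1/2 * u x + 1/2 * u (rho x)) <
      θ * Ma b (fun x => 1/2 * u x + 1/2 * u (rho x))
  · refine pair_of_parity hk hkm hb hb1 hA0 hA hθ s1 h (ε := 1) (by norm_num) ?_
    intro x
    simp only [rho_rho]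
    ring
  · have h' : En A b (fun x => 1/2 * u x + -1/2 * u (rho x)) <
      θ * Ma b (fun x => 1/2 * u x + -1/2 * u (rho x)) := by
      push Not at h
      rw [e2, m2]
      rw [e1, m1] at h
      nlinarith
    refine pair_of_parity hk hkm hb hb1 hA0 hA hθ s2 h' (ε := -1) (by norm_num) ?_
    intro x
    simp only [rho_rho]
    ring

end Pool.Agent.Lib.MP_d01728_an
end

section

open MeasureTheory Set Measure
open scoped ENNReal NNReal

namespace Pool.Agent.Lib.MP_d01728_an

theorem convex_Om (b : ℝ) : Convex ℝ (Om b) := by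
  intro x hx y hy p q hp hq hpq
  obtain ⟨h1, h2, h3⟩ := hx
  obtain ⟨h4, h5, h6⟩ := hy
  have e : ∀ i, (p • x + q • y) i = p * x i + q * y i := by
    intro i; simp
  have hq' : q = 1 - p := by linarith
  refine ⟨?_, ?_, ?_⟩
  · rw [e]
    rcases hp.eq_or_lt with h | h
    · have : q = 1 := by linarith
      rw [← h, this]; linarith
    · have : 0 < p * x 1 := mul_pos h h1
      have : 0 ≤ q * y 1 := mul_nonneg hq h4.le
      linarith
  · rw [e, e, abs_lt]
    rw [abs_lt] at h2 h5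
    rcases hp.eq_or_lt with h | h
    · have : q = 1 := by linarith
      rw [← h, this]; constructor <;> linarith [h5.1, h5.2]
    · have a1 := mul_lt_mul_of_pos_left h2.1 h
      have a2 := mul_lt_mul_of_pos_left h2.2 h
      have a3 := mul_le_mul_of_nonneg_left h5.1.le hq
      have a4 := mul_le_mul_of_nonneg_left h5.2.le hq
      have key : b * (1 - (p * x 1 + q * y 1)) = p * (b * (1 - x 1)) + q * (b * (1 - y 1)) := by
        rw [hq']; ring
      rw [key]
      constructor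
      · linarith
      · linarith
  · rw [e, e, abs_lt]
    rw [abs_lt] at h3 h6
    rcases hp.eq_or_lt with h | h
    · have : q = 1 := by linarith
      rw [← h, this]; constructor <;> linarith [h6.1, h6.2]
    · have a1 := mul_lt_mul_of_pos_left h3.1 h
      have a2 := mul_lt_mul_of_pos_left h3.2 h
      have a3 := mul_le_mul_of_nonneg_left h6.1.le hq
      have a4 := mul_le_mul_of_nonneg_left h6.2.le hq
      constructor
      · nlinarith
      · nlinarith

theorem isBounded_Om {b : ℝ} (hb : 0 < b) : Bornology.IsBounded (Om b) :=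
  (isCompact_closure_Om hb).isBounded.subset subset_closure

theorem mem_Om_point {b z : ℝ} (hb : 0 < b) (hz : |z| ≤ 400) : (!₂[z, 1/2, 0] : E3) ∈ Om b := by
  refine ⟨by simp, ?_, ?_⟩
  · simp; linarith
  · simp; linarith

theorem diam_le {b : ℝ} (hb : 0 < b) (hb1 : b ≤ 1 / 10 ^ 7) :
    Metric.diam (Om b) ^ 2 ≤ 1000002 := by
  have h : Metric.diam (Om b) ≤ Real.sqrt 1000002 := by
    apply Metric.diam_le_of_forall_dist_le (Real.sqrt_nonneg _)
    intro x hx y hy
    apply Real.le_sqrt_of_sq_le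
    rw [dist_sq_E3]
    have aux : ∀ x ∈ Om b, |x 0| ≤ 500 ∧ 0 ≤ x 1 ∧ x 1 ≤ 1 ∧ |x 2| ≤ b := by
      intro x hx
      obtain ⟨h1, h2, h3⟩ := closure_Om_subset b (subset_closure hx)
      have h4 : 0 ≤ b * (1 - x 1) := (abs_nonneg _).trans h2
      have h5 : x 1 ≤ 1 := by
        by_contra h; push Not at h; nlinarith
      exact ⟨by linarith, h1, h5, by nlinarith⟩
    obtain ⟨a0, a1, a2, a3⟩ := aux x hx
    obtain ⟨b0, b1, b2, b3⟩ := aux y hy
    rw [abs_le] at a0 b0 a3 b3
    have c0 : (x 0 - y 0) ^ 2 ≤ 1000 ^ 2 := sq_le_sq' (by linarith) (by linarith)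
    have c1 : (x 1 - y 1) ^ 2 ≤ 1 ^ 2 := sq_le_sq' (by linarith) (by linarith)
    have c2 : (x 2 - y 2) ^ 2 ≤ (2 * b) ^ 2 := sq_le_sq' (by linarith) (by linarith)
    have c3 : (2 * b) ^ 2 ≤ (1 / 10) ^ 2 := by
      gcongr
      linarith
    linarith
  calc Metric.diam (Om b) ^ 2 ≤ Real.sqrt 1000002 ^ 2 := by
        gcongr
    _ = 1000002 := Real.sq_sqrt (by norm_num)

theorem le_diam {b : ℝ} (hb : 0 < b) : 800 ≤ Metric.diam (Om b) := by
  have h1 := mem_Om_point (z := 400) hb (by norm_num)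
  have h2 := mem_Om_point (z := -400) hb (by norm_num)
  have h := Metric.dist_le_diam_of_mem (isBounded_Om hb) h1 h2
  refine le_trans ?_ h
  have h3 : dist (!₂[(400:ℝ), 1/2, 0] : E3) !₂[(-400:ℝ), 1/2, 0] ^ 2 = 800 ^ 2 := by
    rw [dist_sq_E3]
    simp only [Matrix.cons_val_zero, Matrix.cons_val_one, Matrix.cons_val]
    norm_num
  nlinarith [dist_nonneg (x := (!₂[(400:ℝ), 1/2, 0] : E3)) (y := !₂[(-400:ℝ), 1/2, 0])]

theorem lam_exists {k : ℝ} (hk : 0 < k)
    (hkm : (μH[2] : Measure E2) = ENNReal.ofReal k • (volume : Measure E2))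
    {A b : ℝ} (hb : 0 < b) (hb1 : b ≤ 1 / 10 ^ 7) (hA0 : 0 ≤ A) (hA : A * k = 1 / 20 * b) :
    ∃ lam0 lam1 : ℝ,
    IsGLB {t : ℝ | ∃ u : E3 → ℝ, ContDiff ℝ 1 u ∧ 0 < Ma b u ∧ t = En A b u / Ma b u} lam0 ∧
    IsGLB {t : ℝ | ∃ u w : E3 → ℝ, ContDiff ℝ 1 u ∧ ContDiff ℝ 1 w ∧
      0 < Ma b u * Ma b w - Mb b u w ^ 2 ∧
      IsLUB {s : ℝ | ∃ p q : ℝ, (p ≠ 0 ∨ q ≠ 0) ∧
        s = En A b (fun y => p * u y + q * w y) / Ma b (fun y => p * u y + q * w y)} t} lam1 ∧
    lam1 - lam0 ≤ 576 / 10 ^ 8 := by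
  have hEn0 : ∀ u, 0 ≤ En A b u := by
    intro u
    unfold En
    have h1 : 0 ≤ ∫ x in Om b, ‖fderiv ℝ u x‖ ^ 2 := integral_nonneg fun x => sq_nonneg _
    have h2 : 0 ≤ ∫ x in frontier (Om b), u x ^ 2 ∂(μH[2] : Measure E3) :=
      integral_nonneg fun x => sq_nonneg _
    positivity
  have hMa0 : ∀ u, 0 ≤ Ma b u := fun u => integral_nonneg fun x => sq_nonneg _
  set T0 := {t : ℝ | ∃ u : E3 → ℝ, ContDiff ℝ 1 u ∧ 0 < Ma b u ∧ t = En A b u / Ma b u} with hT0
  have hMu0 : 0 < Ma b u0 := by rw [Ma_trial hb]; positivity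
  have hmem0 : En A b u0 / Ma b u0 ∈ T0 := ⟨u0, contDiff_u0, hMu0, rfl⟩
  have hbdd0 : BddBelow T0 := ⟨0, by
    rintro t ⟨u, _, h1, rfl⟩
    exact div_nonneg (hEn0 u) h1.le⟩
  obtain ⟨lam0, hlam0⟩ := Real.exists_isGLB ⟨_, hmem0⟩ hbdd0
  -- upper bound for lam0
  have hub : lam0 ≤ 594 / 10000 := by
    refine (hlam0.1 hmem0).trans ?_
    rw [div_le_iff₀ hMu0, Ma_trial hb]
    refine (En_trial hk hkm hb hA0).trans ?_
    rw [hA]
    have hb2 : b ^ 2 ≤ 1 / 10 ^ 7 := by
      calc b ^ 2 ≤ (1 / 10 ^ 7) ^ 2 := by gcongr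
        _ ≤ 1 / 10 ^ 7 := by norm_num
    have h1 : 8 * 10 ^ 6 * b / 15 +
        1 / 20 * b * (2 * (1 + b ^ 2) * (10 ^ 10 / 30) + 10 ^ 8 * (42804 * b)) =
        b * (8 * 10 ^ 6 / 15 + 1 / 20 * (2 * (1 + b ^ 2) * (10 ^ 10 / 30) +
          10 ^ 8 * (42804 * b))) := by ring
    have h2 : 594 / 10000 * (2 * 10 ^ 10 * b / 35) =
        b * (594 / 10000 * (2 * 10 ^ 10 / 35)) := by ring
    rw [h1, h2]
    apply mul_le_mul_of_nonneg_left _ hb.le
    nlinarith
  -- the pair
  obtain ⟨t0, ⟨u, hu, hMu, rfl⟩, _, ht0⟩ := hlam0.exists_between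
    (show lam0 < lam0 + 1 / 10 ^ 6 by linarith)
  have hE : En A b u < (lam0 + 1 / 10 ^ 6) * Ma b u := by
    rwa [div_lt_iff₀ hMu] at ht0
  obtain ⟨v, w, hv, hw, hMv, hMw, hMb, hBn, hEv, hEw⟩ :=
    exists_pair hk hkm hb hb1 hA0 hA (by linarith) hu hE
  set T1 := {t : ℝ | ∃ u w : E3 → ℝ, ContDiff ℝ 1 u ∧ ContDiff ℝ 1 w ∧
      0 < Ma b u * Ma b w - Mb b u w ^ 2 ∧
      IsLUB {s : ℝ | ∃ p q : ℝ, (p ≠ 0 ∨ q ≠ 0) ∧
        s = En A b (fun y => p * u y + q * w y) / Ma b (fun y => p * u y + q * w y)} t} with hT1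
  set r := max (En A b v / Ma b v) (En A b w / Ma b w) with hr
  have hrmem : r ∈ T1 := by
    refine ⟨v, w, hv, hw, ?_, ?_, ?_⟩
    · rw [hMb]
      have := mul_pos hMv hMw
      simpa using this
    · rintro s ⟨p, q, hpq, rfl⟩
      rw [En_comb hk hkm hb hv hw, Ma_comb hb hv.continuous hw.continuous, hMb, hBn]
      have hden : 0 < p ^ 2 * Ma b v + 2 * p * q * 0 + q ^ 2 * Ma b w := by
        rcases hpq with h | h
        · have : 0 < p ^ 2 * Ma b v := by positivity
          have : 0 ≤ q ^ 2 * Ma b w := by positivity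
          linarith
        · have : 0 < q ^ 2 * Ma b w := by positivity
          have : 0 ≤ p ^ 2 * Ma b v := by positivity
          linarith
      rw [div_le_iff₀ hden]
      have h1 : En A b v ≤ r * Ma b v := by
        rw [← div_le_iff₀ hMv]; exact le_max_left _ _
      have h2 : En A b w ≤ r * Ma b w := by
        rw [← div_le_iff₀ hMw]; exact le_max_right _ _
      have h3 := mul_le_mul_of_nonneg_left h1 (sq_nonneg p)
      have h4 := mul_le_mul_of_nonneg_left h2 (sq_nonneg q)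
      linarith
    · intro s hs
      apply max_le
      · apply hs
        refine ⟨1, 0, Or.inl one_ne_zero, ?_⟩
        simp
      · apply hs
        refine ⟨0, 1, Or.inr one_ne_zero, ?_⟩
        simp
  have hbdd1 : BddBelow T1 := by
    refine ⟨0, ?_⟩
    rintro t ⟨u, w, _, _, _, hlub⟩
    have h := hlub.1 ⟨1, 0, Or.inl one_ne_zero, rfl⟩
    exact le_trans (div_nonneg (hEn0 _) (hMa0 _)) h
  obtain ⟨lam1, hlam1⟩ := Real.exists_isGLB ⟨_, hrmem⟩ hbdd1
  refine ⟨lam0, lam1, hlam0, hlam1, ?_⟩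
  have h1 : lam1 ≤ r := hlam1.1 hrmem
  have h2 : r ≤ lam0 + 1 / 10 ^ 6 + 476 / 10 ^ 8 := by
    apply max_le
    · rw [div_le_iff₀ hMv]
      nlinarith
    · rw [div_le_iff₀ hMw]
      exact hEw
  norm_num at h2 ⊢
  linarith

end Pool.Agent.Lib.MP_d01728_an
end
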